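import Pool.Agent.N816.S21.Tor
import Pool.Agent.N373.P24.Ker
import Pool.Agent.N373.P24.Odd
import Pool.Agent.Y700.VC
import Pool.Agent.N871.S17.Tors

/-!
# The torsion subgroup of `E_m(ℚ)`, `E_m : y² = x (x - 9 m) (x + 7 m)`, `m` squarefree

It has order four for `m ≠ 1` and order eight for `m = 1`.

A nonzero point of odd order has `9 x = U²`, `9 (x - 9 m) = V²`, `9 (x + 7 m) = W²` with integers `U`,
`V`, `W`, by the formal group at the odd primes and by doubling at two; and `2 U V W U' =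
± (U⁴ + 5103 m²)` with `U'` the number `U` of the double of the point. Method and some lemmas:
helper373 (level 24), helper871 (level 17), helper875 (level 15).
-/

set_option autoImplicit false
set_option linter.style.haveILetI false

namespace Pool.Agent.N973.P21G.Td

open WeierstrassCurve
open Pool.Agent.TH841.SH (IsR)
open Pool.Agent.N875.X15 (dbl_sq dbl_T isR_eqn two_tor sq_cancel card_four finite_tors tors_congr)
open Pool.Agent.N373.P24 (coprime_of zero_of_two torsion_int den_lin sq_int)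
open Pool.Agent.H901R3.MS (CV Pt)
open Pool.Agent.N637.P21 (Em EQm isR nonsing T4 T4_card T4_two mem_T4 fg_E Em_Δ WN WNQ vr WN_Δ_ne)

open scoped Classical

/-! ### Integers -/

lemma dvd_of_sq {a b c : ℤ} (h : a ^ 2 * c = b ^ 2) : a ∣ b :=
  (Int.pow_dvd_pow_iff two_ne_zero).1 ⟨c, h.symm⟩

lemma natAbs_mem {a : ℤ} {n : ℕ} (hn : n ≠ 0) (h : a ∣ (n : ℤ)) : a.natAbs ∈ Nat.divisors n := by
  rw [Nat.mem_divisors]
  refine ⟨?_, hn⟩
  have := Int.natAbs_dvd_natAbs.2 h
  rwa [Int.natAbs_natCast] at this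

lemma arithA {m U V W U' : ℤ} (hs : Squarefree m) (hV : V ^ 2 = U ^ 2 - 81 * m)
    (_hW : W ^ 2 = U ^ 2 + 63 * m)
    (hU : 4 * U ^ 2 * V ^ 2 * W ^ 2 * U' ^ 2 = (U ^ 4 + 5103 * m ^ 2) ^ 2) : (3 : ℤ) ∣ U := by
  by_contra h3
  have hp3 : Prime (3 : ℤ) := Int.prime_three
  have h3V : ¬ (3 : ℤ) ∣ V := by
    intro h
    apply h3
    apply hp3.dvd_of_dvd_pow (n := 2)
    have e : U ^ 2 = V ^ 2 + 3 * (27 * m) := by rw [hV]; ring
    rw [e]
    exact dvd_add (dvd_pow h two_ne_zero) (dvd_mul_right _ _)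
  have hco : IsCoprime U m := by
    refine coprime_of (c := 81) hs ?_ hV
    intro q hq hqU hq9
    have : q ∣ 3 ^ 4 := hq9
    have h4 := hq.dvd_of_dvd_pow this
    rw [(Nat.prime_dvd_prime_iff_eq hq Nat.prime_three).1 h4] at hqU
    exact h3 (by exact_mod_cast hqU)
  have hcoV : IsCoprime V m := by
    refine coprime_of (U := V) (V := U) (c := -81) hs ?_ (by rw [hV]; ring)
    intro q hq hqU hq9
    have : q ∣ 3 ^ 4 := hq9
    have h4 := hq.dvd_of_dvd_pow this
    rw [(Nat.prime_dvd_prime_iff_eq hq Nat.prime_three).1 h4] at hqU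
    exact h3V (by exact_mod_cast hqU)
  have c3 : ∀ z : ℤ, ¬ (3 : ℤ) ∣ z → ∀ k : ℕ, IsCoprime z (3 ^ k) := by
    intro z hz k
    apply IsCoprime.pow_right
    rw [isCoprime_comm, Prime.coprime_iff_not_dvd hp3]
    exact hz
  have hu : U ∣ 7 := by
    have h2 : U ∣ U ^ 4 + 5103 * m ^ 2 :=
      dvd_of_sq (c := 4 * V ^ 2 * W ^ 2 * U' ^ 2) (by rw [← hU]; ring)
    have h4 : U ∣ 5103 * m ^ 2 := (dvd_add_right (dvd_pow_self U (by norm_num))).1 h2
    have h5 : U ∣ 5103 := (hco.pow_right (n := 2)).dvd_of_dvd_mul_right h4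
    have e : (5103 : ℤ) = 3 ^ 6 * 7 := by norm_num
    rw [e] at h5
    exact (c3 U h3 6).dvd_of_dvd_mul_left h5
  have hv : V ∣ 16 := by
    have h2 : V ∣ U ^ 4 + 5103 * m ^ 2 :=
      dvd_of_sq (c := 4 * U ^ 2 * W ^ 2 * U' ^ 2) (by rw [← hU]; ring)
    have e : U ^ 4 + 5103 * m ^ 2 = V * (V * (V ^ 2 + 162 * m)) + 11664 * m ^ 2 := by
      have h5 : U ^ 2 = V ^ 2 + 81 * m := by rw [hV]; ring
      have h6 : U ^ 4 = (V ^ 2 + 81 * m) ^ 2 := by rw [← h5]; ring
      rw [h6]; ring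
    rw [e] at h2
    have h4 : V ∣ 11664 * m ^ 2 := (dvd_add_right (dvd_mul_right V _)).1 h2
    have h5 : V ∣ 11664 := (hcoV.pow_right (n := 2)).dvd_of_dvd_mul_right h4
    have e : (11664 : ℤ) = 3 ^ 6 * 16 := by norm_num
    rw [e] at h5
    exact (c3 V h3V 6).dvd_of_dvd_mul_left h5
  have hu' := natAbs_mem (n := 7) (by norm_num) hu
  have hv' := natAbs_mem (n := 16) (by norm_num) hv
  have hm0 := hs.ne_zero
  have hus : U ^ 2 = (U.natAbs : ℤ) ^ 2 := (Int.natAbs_sq U).symm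
  have hvs : V ^ 2 = (V.natAbs : ℤ) ^ 2 := (Int.natAbs_sq V).symm
  rw [hus, hvs] at hV
  have d7 : Nat.divisors 7 = {1, 7} := by decide
  have d16 : Nat.divisors 16 = {1, 2, 4, 8, 16} := by decide
  rw [d7] at hu'
  rw [d16] at hv'
  simp only [Finset.mem_insert, Finset.mem_singleton] at hu' hv'
  rcases hu' with h | h <;> rcases hv' with h' | h' | h' | h' | h' <;> rw [h, h'] at hV <;>
    push_cast at hV <;> omega

lemma fin21 : ∀ u ∈ Nat.divisors 63, ∀ v ∈ Nat.divisors 144, ∀ w ∈ Nat.divisors 112,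
    16 * u ^ 2 = 7 * v ^ 2 + 9 * w ^ 2 → u = v := by
  decide +kernel

lemma arithB {m u v w u' : ℤ} (hs : Squarefree m)
    (hv : v ^ 2 = u ^ 2 - 9 * m) (hw : w ^ 2 = u ^ 2 + 7 * m)
    (hu : 4 * u ^ 2 * v ^ 2 * w ^ 2 * u' ^ 2 = (u ^ 4 + 63 * m ^ 2) ^ 2) : False := by
  have hm0 := hs.ne_zero
  -- a prime dividing `m` does not divide `u`
  have key : ∀ q : ℤ, Prime q → q ∣ m → ¬ q ∣ u := by
    intro q hq hqm hqu
    have hqv : q ∣ v := by
      apply hq.dvd_of_dvd_pow (n := 2)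
      rw [hv]
      exact dvd_sub (dvd_pow hqu two_ne_zero) (dvd_mul_of_dvd_right hqm _)
    have hqw : q ∣ w := by
      apply hq.dvd_of_dvd_pow (n := 2)
      rw [hw]
      exact dvd_add (dvd_pow hqu two_ne_zero) (dvd_mul_of_dvd_right hqm _)
    have h1 : q ^ 2 ∣ m := by
      have e : m = 4 * (w ^ 2 - u ^ 2) - 3 * (u ^ 2 - v ^ 2) := by rw [hv, hw]; ring
      rw [e]
      exact dvd_sub (dvd_mul_of_dvd_right (dvd_sub (pow_dvd_pow_of_dvd hqw 2)
        (pow_dvd_pow_of_dvd hqu 2)) _) (dvd_mul_of_dvd_right (dvd_sub (pow_dvd_pow_of_dvd hqu 2)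
        (pow_dvd_pow_of_dvd hqv 2)) _)
    rw [pow_two] at h1
    exact hq.not_isUnit (hs _ h1)
  have cop : ∀ z : ℤ, (∀ q : ℤ, Prime q → q ∣ m → q ∣ z → q ∣ u) → IsCoprime z m := by
    intro z hz
    rw [Int.isCoprime_iff_gcd_eq_one]
    by_contra hne
    obtain ⟨q, hq, hqd⟩ := Nat.exists_prime_and_dvd hne
    have hqz : (q : ℤ) ∣ z := (Int.natCast_dvd_natCast.2 hqd).trans (Int.gcd_dvd_left _ _)
    have hqm : (q : ℤ) ∣ m := (Int.natCast_dvd_natCast.2 hqd).trans (Int.gcd_dvd_right _ _)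
    have hqp : Prime (q : ℤ) := Nat.prime_iff_prime_int.1 hq
    exact key _ hqp hqm (hz _ hqp hqm hqz)
  have hco : IsCoprime u m := cop u (fun q _ _ h => h)
  have hcv : IsCoprime v m := by
    apply cop v
    intro q hq hqm hqv
    apply hq.dvd_of_dvd_pow (n := 2)
    have e : u ^ 2 = v ^ 2 + 9 * m := by rw [hv]; ring
    rw [e]
    exact dvd_add (dvd_pow hqv two_ne_zero) (dvd_mul_of_dvd_right hqm _)
  have hcw : IsCoprime w m := by
    apply cop w
    intro q hq hqm hqv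
    apply hq.dvd_of_dvd_pow (n := 2)
    have e : u ^ 2 = w ^ 2 - 7 * m := by rw [hw]; ring
    rw [e]
    exact dvd_sub (dvd_pow hqv two_ne_zero) (dvd_mul_of_dvd_right hqm _)
  have h2 : u ∣ u ^ 4 + 63 * m ^ 2 :=
    dvd_of_sq (c := 4 * v ^ 2 * w ^ 2 * u' ^ 2) (by rw [← hu]; ring)
  have h2v : v ∣ u ^ 4 + 63 * m ^ 2 :=
    dvd_of_sq (c := 4 * u ^ 2 * w ^ 2 * u' ^ 2) (by rw [← hu]; ring)
  have h2w : w ∣ u ^ 4 + 63 * m ^ 2 :=
    dvd_of_sq (c := 4 * u ^ 2 * v ^ 2 * u' ^ 2) (by rw [← hu]; ring)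
  have h3 : u ∣ ((63 : ℕ) : ℤ) := by
    have h4 : u ∣ 63 * m ^ 2 := (dvd_add_right (dvd_pow_self u (by norm_num))).1 h2
    exact_mod_cast (hco.pow_right (n := 2)).dvd_of_dvd_mul_right h4
  have h3v : v ∣ ((144 : ℕ) : ℤ) := by
    have e : u ^ 4 + 63 * m ^ 2 = v * (v * (v ^ 2 + 18 * m)) + 144 * m ^ 2 := by
      have : u ^ 2 = v ^ 2 + 9 * m := by rw [hv]; ring
      have h5 : u ^ 4 = (v ^ 2 + 9 * m) ^ 2 := by rw [← this]; ring
      rw [h5]; ring
    rw [e] at h2v
    have h4 : v ∣ 144 * m ^ 2 := (dvd_add_right (dvd_mul_right v _)).1 h2v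
    exact_mod_cast (hcv.pow_right (n := 2)).dvd_of_dvd_mul_right h4
  have h3w : w ∣ ((112 : ℕ) : ℤ) := by
    have e : u ^ 4 + 63 * m ^ 2 = w * (w * (w ^ 2 - 14 * m)) + 112 * m ^ 2 := by
      have : u ^ 2 = w ^ 2 - 7 * m := by rw [hw]; ring
      have h5 : u ^ 4 = (w ^ 2 - 7 * m) ^ 2 := by rw [← this]; ring
      rw [h5]; ring
    rw [e] at h2w
    have h4 : w ∣ 112 * m ^ 2 := (dvd_add_right (dvd_mul_right w _)).1 h2w
    exact_mod_cast (hcw.pow_right (n := 2)).dvd_of_dvd_mul_right h4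
  have hus : u ^ 2 = (u.natAbs : ℤ) ^ 2 := (Int.natAbs_sq u).symm
  have hvs : v ^ 2 = (v.natAbs : ℤ) ^ 2 := (Int.natAbs_sq v).symm
  have hws : w ^ 2 = (w.natAbs : ℤ) ^ 2 := (Int.natAbs_sq w).symm
  rw [hus, hvs] at hv
  rw [hus, hws] at hw
  have h5 : 16 * u.natAbs ^ 2 = 7 * v.natAbs ^ 2 + 9 * w.natAbs ^ 2 := by
    have : (16 * (u.natAbs : ℤ) ^ 2) = 7 * (v.natAbs : ℤ) ^ 2 + 9 * (w.natAbs : ℤ) ^ 2 := by
      rw [hv, hw]; ring
    exact_mod_cast this
  have h6 := fin21 _ (natAbs_mem (by norm_num) h3) _ (natAbs_mem (by norm_num) h3v) _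
    (natAbs_mem (by norm_num) h3w) h5
  rw [h6] at hv
  apply hm0
  linarith

/-! ### Points of odd order -/

variable {m : ℤ}

lemma eqnQ {x y : ℚ} (h : (EQm m).toAffine.Nonsingular x y) :
    y ^ 2 = x * (x - 9 * m) * (x + 7 * m) := by
  have := (isR_eqn (isR m)).1 h.1
  rw [this]
  push_cast
  ring

/-- doubling -/
lemma dblQ {x y : ℚ} (h : (EQm m).toAffine.Nonsingular x y) (hy : y ≠ 0) :
    ∃ X Y, ∃ H : (EQm m).toAffine.Nonsingular X Y,
      (Affine.Point.some x y h + Affine.Point.some x y h : (EQm m).toAffine.Point) =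
        Affine.Point.some X Y H ∧ X * (2 * y) ^ 2 = (x ^ 2 + 63 * m ^ 2) ^ 2 := by
  have hR := isR m
  have hneg : y ≠ (EQm m).toAffine.negY x y := by
    intro h1
    apply hy
    rw [Affine.negY, hR.h1, hR.h3] at h1
    linear_combination (1 / 2 : ℚ) * h1
  rw [Affine.Point.add_self_of_Y_ne hneg]
  refine ⟨_, _, _, rfl, ?_⟩
  have q1 := eqnQ h
  have h2y : 2 * y ≠ 0 := mul_ne_zero two_ne_zero hy
  have hs : (EQm m).toAffine.slope x x y y = (3 * x ^ 2 - 4 * m * x - 63 * m ^ 2) / (2 * y) := by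
    rw [Affine.slope_of_Y_ne rfl hneg, Affine.negY, hR.h1, hR.h2, hR.h3, hR.h4]
    congr 1
    · push_cast; ring
    · ring
  rw [Affine.addX, hs, hR.h1, hR.h2, zero_mul, add_zero]
  push_cast
  field_simp
  linear_combination (8 * (m - x)) * q1

lemma val_dbl (hm : m ≠ 0) {x y X : ℚ} (h1 : y ^ 2 = x * (x - 9 * m) * (x + 7 * m)) (hy : y ≠ 0)
    (h2 : X * (2 * y) ^ 2 = (x ^ 2 + 63 * m ^ 2) ^ 2) (hx : padicValRat 2 x < 0) :
    padicValRat 2 X = padicValRat 2 x - 2 := by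
  have hx0 : x ≠ 0 := by
    rintro rfl
    simp at hx
  have hy2 : y ^ 2 ≠ 0 := pow_ne_zero 2 hy
  have hxm : x - 9 * m ≠ 0 := by
    intro h
    rw [h1, h] at hy2
    simp at hy2
  have hxm3 : x + 7 * m ≠ 0 := by
    intro h
    rw [h1, h] at hy2
    simp at hy2
  have hmQ : (m : ℚ) ≠ 0 := by exact_mod_cast hm
  have hint : ∀ z : ℤ, 0 ≤ padicValRat 2 (z : ℚ) := by
    intro z
    rw [padicValRat.of_int]
    exact Int.natCast_nonneg _
  have hpos : (0 : ℚ) < x ^ 2 + 63 * m ^ 2 := by positivity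
  have v1 : padicValRat 2 (x - 9 * m) = padicValRat 2 x := by
    have e : x - 9 * (m : ℚ) = x + ((-9 * m : ℤ) : ℚ) := by push_cast; ring
    rw [e]
    refine padicValRat.add_eq_of_lt (by rw [← e]; exact hxm) hx0 ?_ (lt_of_lt_of_le hx (hint _))
    push_cast
    exact mul_ne_zero (by norm_num) hmQ
  have v2 : padicValRat 2 (x + 7 * m) = padicValRat 2 x := by
    have e : x + 7 * (m : ℚ) = x + ((7 * m : ℤ) : ℚ) := by push_cast; ring
    rw [e]
    refine padicValRat.add_eq_of_lt (by rw [← e]; exact hxm3) hx0 ?_ (lt_of_lt_of_le hx (hint _))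
    push_cast
    exact mul_ne_zero (by norm_num) hmQ
  have v3 : padicValRat 2 (x ^ 2 + 63 * m ^ 2) = 2 * padicValRat 2 x := by
    have e : x ^ 2 + 63 * (m : ℚ) ^ 2 = x ^ 2 + ((63 * m ^ 2 : ℤ) : ℚ) := by push_cast; ring
    have e2 : padicValRat 2 (x ^ 2) = 2 * padicValRat 2 x := by
      rw [padicValRat.pow]
      push_cast
      ring
    rw [e, ← e2]
    refine padicValRat.add_eq_of_lt (by rw [← e]; exact hpos.ne') (pow_ne_zero 2 hx0) ?_ ?_
    · push_cast
      exact mul_ne_zero (by norm_num) (pow_ne_zero 2 hmQ)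
    · rw [e2]
      exact lt_of_lt_of_le (by linarith) (hint _)
  have v4 : padicValRat 2 (y ^ 2) = 3 * padicValRat 2 x := by
    rw [h1, padicValRat.mul (mul_ne_zero hx0 hxm) hxm3, padicValRat.mul hx0 hxm, v1, v2]
    ring
  have hX0 : X ≠ 0 := by
    rintro rfl
    rw [zero_mul] at h2
    exact (pow_ne_zero 2 hpos.ne') h2.symm
  have v5 : padicValRat 2 (X * (2 * y) ^ 2) = padicValRat 2 X + 2 + 3 * padicValRat 2 x := by
    have e : X * (2 * y) ^ 2 = X * 2 ^ 2 * y ^ 2 := by ring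
    rw [e, padicValRat.mul (mul_ne_zero hX0 (by norm_num)) hy2,
      padicValRat.mul hX0 (by norm_num), padicValRat.pow, v4]
    have : padicValRat 2 (2 : ℚ) = 1 := by
      have := padicValRat.self (p := 2) (by norm_num)
      exact_mod_cast this
    rw [this]
    ring
  rw [h2, padicValRat.pow, v3] at v5
  push_cast at v5
  linarith

lemma y_ne {x y : ℚ} (h : (EQm m).toAffine.Nonsingular x y) {N : ℕ} (hN : Odd N)
    (hP : N • (Affine.Point.some x y h : (EQm m).toAffine.Point) = 0) : y ≠ 0 := by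
  rintro rfl
  exact Affine.Point.some_ne_zero h (zero_of_two hN hP (dbl_T (isR m) h))

lemma two_adic (hm : m ≠ 0) {x y : ℚ} (h : (EQm m).toAffine.Nonsingular x y) {N : ℕ} (hN : Odd N)
    (hP : N • (Affine.Point.some x y h : (EQm m).toAffine.Point) = 0) : 0 ≤ padicValRat 2 x := by
  by_contra hx
  push Not at hx
  have key : ∀ j : ℕ, ∃ X Y, ∃ H : (EQm m).toAffine.Nonsingular X Y,
      2 ^ j • (Affine.Point.some x y h : (EQm m).toAffine.Point) = Affine.Point.some X Y H ∧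
        padicValRat 2 X = padicValRat 2 x - 2 * j := by
    intro j
    induction j with
    | zero => exact ⟨x, y, h, by rw [pow_zero, one_nsmul], by simp⟩
    | succ j ih =>
      obtain ⟨X, Y, H, e1, e2⟩ := ih
      have hN' : N • (Affine.Point.some X Y H : (EQm m).toAffine.Point) = 0 := by
        rw [← e1, ← mul_nsmul', mul_comm, mul_nsmul', hP, nsmul_zero]
      have hY := y_ne H hN hN'
      obtain ⟨X', Y', H', e3, e4⟩ := dblQ H hY
      refine ⟨X', Y', H', ?_, ?_⟩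
      · rw [pow_succ, mul_comm, mul_nsmul', two_nsmul, e1, e3]
      · rw [val_dbl hm (eqnQ H) hY e4 (by rw [e2]; have : (0 : ℤ) ≤ j := Int.natCast_nonneg j; linarith),
          e2]
        push_cast
        ring
  have hN0 : 0 < N := hN.pos
  obtain ⟨X, Y, H, e1, e2⟩ := key (Nat.totient N)
  have hmod : 2 ^ Nat.totient N ≡ 1 [MOD N] := Nat.ModEq.pow_totient (Nat.coprime_two_left.2 hN)
  have h1 : 2 ^ Nat.totient N • (Affine.Point.some x y h : (EQm m).toAffine.Point) =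
      Affine.Point.some x y h := by
    have h2 : N ∣ 2 ^ Nat.totient N - 1 := (Nat.modEq_iff_dvd' Nat.one_le_two_pow).1 hmod.symm
    obtain ⟨c, hc⟩ := h2
    have h3 : 2 ^ Nat.totient N = c * N + 1 := by
      have := Nat.one_le_two_pow (n := Nat.totient N)
      rw [mul_comm] at hc
      omega
    rw [h3, add_nsmul, one_nsmul, mul_nsmul', hP, nsmul_zero, zero_add]
  rw [h1] at e1
  injection e1 with e3 e4
  rw [← e3] at e2
  have h5 : 0 < Nat.totient N := Nat.totient_pos.2 hN0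
  have h6 : (0 : ℤ) < (Nat.totient N : ℕ) := by exact_mod_cast h5
  linarith

lemma vrE (m : ℤ) : Pool.Agent.Y700.VR (CV ((-5211 * m ^ 2 : ℤ) : ℚ) ((-31050 * m ^ 3 : ℤ) : ℚ)) (EQm m)
    3 (-6 * m) 0 0 := by
  refine ⟨by norm_num, ?_, ?_, ?_, ?_, ?_⟩ <;> simp [CV, Em] <;> ring

lemma int9 (hm : m ≠ 0) {x y : ℚ} (h : (EQm m).toAffine.Nonsingular x y) {N : ℕ} (hN : Odd N)
    (hP : N • (Affine.Point.some x y h : (EQm m).toAffine.Point) = 0) : ∃ z : ℤ, 9 * x = z := by
  have hD : (EQm m).Δ ≠ 0 := Pool.Agent.N637.P21.EQm_Δ_ne hm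
  have hfin : IsOfFinAddOrder (Affine.Point.some x y h : (EQm m).toAffine.Point) :=
    isOfFinAddOrder_iff_nsmul_eq_zero.2 ⟨N, hN.pos, hP⟩
  have hfin' := ((vrE m).equiv hD).toAddMonoidHom.isOfFinAddOrder hfin
  have e : ((vrE m).equiv hD).toAddMonoidHom (Affine.Point.some x y h) =
      (vrE m).fn hD (Affine.Point.some x y h) := rfl
  rw [e, (vrE m).fn_some hD h] at hfin'
  have hodd : ∀ p : ℕ, p.Prime → p ≠ 2 → ¬ p ∣ ((3 : ℚ) ^ 2 * x + -6 * m).den := by
    intro p hp hp2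
    haveI := Fact.mk hp
    exact torsion_int p hp2 _ _ _ hfin'
  have h2 : ¬ 2 ∣ x.den := by
    intro hd
    have h0 := two_adic hm h hN hP
    rw [padicValRat_def] at h0
    have h1 : 1 ≤ padicValNat 2 x.den := one_le_padicValNat_of_dvd x.den_nz hd
    have h3 : padicValInt 2 x.num = 0 := by
      rw [padicValInt]
      apply padicValNat.eq_zero_of_not_dvd
      intro h4
      have h5 := Nat.dvd_gcd h4 hd
      rw [x.reduced] at h5
      omega
    rw [h3] at h0
    have h4 : (1 : ℤ) ≤ (padicValNat 2 x.den : ℤ) := by exact_mod_cast h1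
    push_cast at h0
    linarith
  have h1 : ((3 : ℚ) ^ 2 * x + -6 * m).den = 1 := by
    by_contra hne
    obtain ⟨p, hp, hpd⟩ := Nat.exists_prime_and_dvd hne
    by_cases hp2 : p = 2
    · subst hp2
      have e2 : (3 : ℚ) ^ 2 * x + -6 * m = ((9 : ℤ) : ℚ) * x + ((-6 * m : ℤ) : ℚ) := by
        push_cast; ring
      rw [e2] at hpd
      exact h2 (hpd.trans (den_lin x 9 (-6 * m)))
    · exact hodd p hp hp2 hpd
  refine ⟨((3 : ℚ) ^ 2 * x + -6 * m).num + 6 * m, ?_⟩
  have h3 : (((3 : ℚ) ^ 2 * x + -6 * m).num : ℚ) = (3 : ℚ) ^ 2 * x + -6 * m :=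
    Rat.coe_int_num_of_den_eq_one h1
  push_cast
  rw [h3]
  ring

lemma data (hm : m ≠ 0) {x y : ℚ} (h : (EQm m).toAffine.Nonsingular x y) {N : ℕ} (hN : Odd N)
    (hP : N • (Affine.Point.some x y h : (EQm m).toAffine.Point) = 0) :
    ∃ U V W : ℤ, 9 * x = (U : ℚ) ^ 2 ∧ 9 * (x - 9 * m) = (V : ℚ) ^ 2 ∧
      9 * (x + 7 * m) = (W : ℚ) ^ 2 := by
  obtain ⟨z, hz⟩ := int9 hm h hN hP
  obtain ⟨k, hk⟩ := hN
  -- half of the point
  have hhalf : ∃ x' y', ∃ h' : (EQm m).toAffine.Nonsingular x' y', y' ≠ 0 ∧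
      (Affine.Point.some x' y' h' + Affine.Point.some x' y' h' : (EQm m).toAffine.Point) =
        Affine.Point.some x y h := by
    obtain ⟨Q, hQ⟩ : ∃ Q, Q = (k + 1) • (Affine.Point.some x y h : (EQm m).toAffine.Point) := ⟨_, rfl⟩
    have h1 : Q + Q = Affine.Point.some x y h := by
      rw [hQ, ← add_nsmul]
      have : k + 1 + (k + 1) = N + 1 := by omega
      rw [this, add_nsmul, hP, one_nsmul, zero_add]
    rcases Q with _ | ⟨x', y', h'⟩
    · exact absurd h1.symm (Affine.Point.some_ne_zero h)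
    · refine ⟨x', y', h', ?_, h1⟩
      rintro rfl
      rw [dbl_T (isR m) h'] at h1
      exact Affine.Point.some_ne_zero h h1.symm
  obtain ⟨x', y', h', hy', he⟩ := hhalf
  have hR := isR m
  have k1 := dbl_sq hR two_ne_zero h' hy' h he
  have k2 := dbl_sq hR.rot two_ne_zero h' hy' h he
  have k3 := dbl_sq hR.rot.rot two_ne_zero h' hy' h he
  obtain ⟨U, hU⟩ := sq_int (q := x) z hz (by simpa using k1)
  have k2' : IsSquare (x - 9 * (m : ℚ)) := by
    have e : x - ((9 * m : ℤ) : ℚ) = x - 9 * m := by push_cast; ring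
    rw [← e]; exact k2
  have k3' : IsSquare (x + 7 * (m : ℚ)) := by
    have e : x - ((-7 * m : ℤ) : ℚ) = x + 7 * m := by push_cast; ring
    rw [← e]; exact k3
  obtain ⟨V, hV⟩ := sq_int (q := x - 9 * m) (z - 81 * m) (by push_cast; linear_combination hz) k2'
  obtain ⟨W, hW⟩ := sq_int (q := x + 7 * m) (z + 63 * m) (by push_cast; linear_combination hz) k3'
  exact ⟨U, V, W, hU, hV, hW⟩

/-- the relation between a point and its double -/
lemma rel {x y X : ℚ} {U V W U' : ℤ} (h1 : y ^ 2 = x * (x - 9 * m) * (x + 7 * m))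
    (h2 : X * (2 * y) ^ 2 = (x ^ 2 + 63 * m ^ 2) ^ 2) (hU : 9 * x = (U : ℚ) ^ 2)
    (hV : 9 * (x - 9 * m) = (V : ℚ) ^ 2) (hW : 9 * (x + 7 * m) = (W : ℚ) ^ 2)
    (hU' : 9 * X = (U' : ℚ) ^ 2) :
    4 * U ^ 2 * V ^ 2 * W ^ 2 * U' ^ 2 = (U ^ 4 + 5103 * m ^ 2) ^ 2 := by
  have h : (4 * (U : ℚ) ^ 2 * V ^ 2 * W ^ 2 * U' ^ 2) = ((U : ℚ) ^ 4 + 5103 * m ^ 2) ^ 2 := by
    have e4 : (U : ℚ) ^ 4 = ((U : ℚ) ^ 2) ^ 2 := by ring
    rw [e4, ← hU, ← hV, ← hW, ← hU']
    linear_combination 6561 * h2 - 4 * 6561 * X * h1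
  exact_mod_cast h

lemma intV {x : ℚ} {U V : ℤ} (hU : 9 * x = (U : ℚ) ^ 2) (hV : 9 * (x - 9 * m) = (V : ℚ) ^ 2) :
    V ^ 2 = U ^ 2 - 81 * m := by
  have h : (V : ℚ) ^ 2 = (U : ℚ) ^ 2 - 81 * m := by rw [← hU, ← hV]; ring
  exact_mod_cast h

lemma intW {x : ℚ} {U W : ℤ} (hU : 9 * x = (U : ℚ) ^ 2) (hW : 9 * (x + 7 * m) = (W : ℚ) ^ 2) :
    W ^ 2 = U ^ 2 + 63 * m := by
  have h : (W : ℚ) ^ 2 = (U : ℚ) ^ 2 + 63 * m := by rw [← hU, ← hW]; ring
  exact_mod_cast h

/-- **There is no nonzero point of odd order.** -/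
theorem no_odd (hs : Squarefree m)
    (P : (EQm m).toAffine.Point) {N : ℕ} (hN : Odd N) (hP : N • P = 0) : P = 0 := by
  by_contra hne
  have hm0 := hs.ne_zero
  -- three divides `U` for all nonzero points of odd order
  have stepA : ∀ (x y : ℚ) (h : (EQm m).toAffine.Nonsingular x y),
      N • (Affine.Point.some x y h : (EQm m).toAffine.Point) = 0 →
      ∃ X Y, ∃ H : (EQm m).toAffine.Nonsingular X Y,
        N • (Affine.Point.some X Y H : (EQm m).toAffine.Point) = 0 ∧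
        y ^ 2 = x * (x - 9 * m) * (x + 7 * m) ∧ X * (2 * y) ^ 2 = (x ^ 2 + 63 * m ^ 2) ^ 2 := by
    intro x y h hP
    obtain ⟨X, Y, H, e1, e2⟩ := dblQ h (y_ne h hN hP)
    refine ⟨X, Y, H, ?_, eqnQ h, e2⟩
    rw [← e1, nsmul_add, hP, add_zero]
  have stepB : ∀ (x y : ℚ) (h : (EQm m).toAffine.Nonsingular x y),
      N • (Affine.Point.some x y h : (EQm m).toAffine.Point) = 0 →
      ∀ U V W : ℤ, 9 * x = (U : ℚ) ^ 2 → 9 * (x - 9 * m) = (V : ℚ) ^ 2 →
        9 * (x + 7 * m) = (W : ℚ) ^ 2 → (3 : ℤ) ∣ U := by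
    intro x y h hP U V W hU hV hW
    obtain ⟨X, Y, H, hP', q1, q2⟩ := stepA x y h hP
    obtain ⟨U', V', W', hU', -, -⟩ := data hm0 H hN hP'
    exact arithA hs (intV hU hV) (intW hU hW) (rel q1 q2 hU hV hW hU')
  rcases P with _ | ⟨x, y, h⟩
  · exact hne rfl
  obtain ⟨X, Y, H, hP', q1, q2⟩ := stepA x y h hP
  obtain ⟨U, V, W, hU, hV, hW⟩ := data hm0 h hN hP
  obtain ⟨U', V', W', hU', hV', hW'⟩ := data hm0 H hN hP'
  have hrel := rel q1 q2 hU hV hW hU'
  have iV := intV hU hV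
  have iW := intW hU hW
  obtain ⟨u, rfl⟩ := stepB x y h hP U V W hU hV hW
  obtain ⟨u', rfl⟩ := stepB X Y H hP' U' V' W' hU' hV' hW'
  have h3 : ∀ z : ℤ, (3 : ℤ) ∣ z ^ 2 → ∃ w, z = 3 * w := fun z hz =>
    Int.prime_three.dvd_of_dvd_pow hz
  obtain ⟨v, rfl⟩ := h3 V (by rw [iV]; exact ⟨3 * u ^ 2 - 27 * m, by ring⟩)
  obtain ⟨w, rfl⟩ := h3 W (by rw [iW]; exact ⟨3 * u ^ 2 + 21 * m, by ring⟩)
  refine arithB (u := u) (v := v) (w := w) (u' := u') hs (by linarith) (by linarith) ?_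
  have : 6561 * (4 * u ^ 2 * v ^ 2 * w ^ 2 * u' ^ 2) = 6561 * (u ^ 4 + 63 * m ^ 2) ^ 2 := by
    linear_combination hrel
  exact mul_left_cancel₀ (by norm_num) this

/-- an odd cofactor of the order of the torsion subgroup is one -/
lemma cof_one (hs : Squarefree m) {c t : ℕ} (hc : c ≠ 0) (ht : Odd t)
    (he : Nat.card (AddCommGroup.torsion (EQm m).toAffine.Point) = c * t) : t = 1 := by
  by_contra ht1
  obtain ⟨l, hl, hlt⟩ := Nat.exists_prime_and_dvd ht1
  have hl2 : Odd l := by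
    obtain ⟨c, rfl⟩ := hlt
    exact (Nat.odd_mul.1 ht).1
  haveI := Fact.mk hl
  haveI : Finite (AddCommGroup.torsion (EQm m).toAffine.Point) := by
    apply Nat.finite_of_card_ne_zero
    rw [he]
    exact mul_ne_zero hc ht.pos.ne'
  obtain ⟨x, hx⟩ := exists_prime_addOrderOf_dvd_card' (G := AddCommGroup.torsion
    (EQm m).toAffine.Point) l (by
      rw [he]
      exact hlt.mul_left c)
  have h2 : l • x = 0 := by
    rw [← hx]
    exact addOrderOf_nsmul_eq_zero x
  have h3 : l • (x : (EQm m).toAffine.Point) = 0 := congrArg Subtype.val h2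
  have h4 := no_odd hs _ hl2 h3
  have h5 : x = 0 := Subtype.ext h4
  rw [h5, addOrderOf_zero] at hx
  exact hl.one_lt.ne hx

/-- **The torsion subgroup has order four for `m ≠ 1`.** -/
theorem tors_four (hs : Squarefree m) (h1 : m ≠ 1) :
    Nat.card (AddCommGroup.torsion (EQm m).toAffine.Point) = 4 := by
  obtain ⟨t, ht, he⟩ := Pool.Agent.N816.S21.tors_Em hs h1
  rw [he, cof_one hs (by norm_num) ht he]

/-! ### The case `m = 1` -/

/-- a group with two elements killed by two and no element of order four -/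
theorem card_two {A : Type} [AddCommGroup A] [Finite A] (h2 : Nat.card {x : A // x + x = 0} = 2)
    (h4 : ∀ x : A, (x + x) + (x + x) = 0 → x + x = 0) : ∃ t : ℕ, Odd t ∧ Nat.card A = 2 * t := by
  let f : A →+ A := (AddMonoidHom.id A) + (AddMonoidHom.id A)
  have hf : ∀ x, f x = x + x := fun x => rfl
  have hker : Nat.card f.ker = 2 := by
    rw [← h2]
    exact Nat.card_congr (Equiv.subtypeEquivRight fun x => by rw [AddMonoidHom.mem_ker, hf])
  refine ⟨Nat.card f.range, ?_, ?_⟩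
  · rw [← Nat.not_even_iff_odd]
    intro he
    have : Fact (Nat.Prime 2) := ⟨Nat.prime_two⟩
    obtain ⟨x, hx⟩ := exists_prime_addOrderOf_dvd_card' (G := f.range) 2 (even_iff_two_dvd.1 he)
    have hx2 : x + x = 0 := by
      rw [← two_nsmul, ← hx]
      exact addOrderOf_nsmul_eq_zero x
    obtain ⟨⟨y, ⟨z, hz⟩⟩, rfl⟩ : ∃ y, y = x := ⟨x, rfl⟩
    have h5 : y + y = 0 := congrArg Subtype.val hx2
    rw [hf] at hz
    rw [← hz] at h5
    have h6 := h4 z h5
    have h7 : y = 0 := by rw [← hz, h6]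
    have h8 : (⟨y, ⟨z, hz⟩⟩ : f.range) = 0 := Subtype.ext h7
    rw [h8, addOrderOf_zero] at hx
    exact absurd hx (by norm_num)
  · have h1 := AddSubgroup.card_eq_card_quotient_mul_card_addSubgroup f.ker
    rw [hker] at h1
    have h3 : Nat.card (A ⧸ f.ker) = Nat.card f.range :=
      Nat.card_congr (QuotientAddGroup.quotientKerEquivRange f).toEquiv
    rw [h1, h3, mul_comm]

lemma not_sq (c : ℤ) (hc : ¬ IsSquare c) {x : ℚ} (hx : x = c) : ¬ IsSquare x := by
  rw [hx, Rat.isSquare_intCast_iff]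
  exact hc

/-- the point `(9, 0)` -/
noncomputable def T9 : (EQm 1).toAffine.Point :=
  .some 9 0 (nonsing one_ne_zero (by norm_num))

lemma T9_two : T9 + T9 = 0 := dbl_T (isR 1) _

lemma T9_ne : T9 ≠ 0 := Affine.Point.some_ne_zero _

lemma ns21 : (EQm 1).toAffine.Nonsingular 21 84 := by
  rw [Affine.nonsingular_iff, Affine.equation_iff]
  simp only [Em, map_a₁, map_a₂, map_a₃, map_a₄, map_a₆, eq_intCast]
  push_cast
  norm_num

/-- a double which is killed by two is `0` or `(9, 0)` -/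
lemma dbl_two {P : (EQm 1).toAffine.Point} (h : (P + P) + (P + P) = 0) : P + P = 0 ∨ P + P = T9 := by
  by_contra hne
  push Not at hne
  obtain ⟨hne, hne9⟩ := hne
  have hR := isR 1
  obtain ⟨e, he, hP2, hee⟩ := two_tor hR two_ne_zero h hne
  rcases P with _ | ⟨x, y, hxy⟩
  · exact hne (add_zero _)
  have hy : y ≠ 0 := by
    rintro rfl
    exact hne (dbl_T hR hxy)
  have k1 := dbl_sq hR two_ne_zero hxy hy he hP2
  have k2 := dbl_sq hR.rot two_ne_zero hxy hy he hP2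
  rcases hee with rfl | rfl | rfl
  · refine not_sq (-9) ?_ ?_ k2
    · rintro ⟨r, hr⟩
      nlinarith [mul_self_nonneg r]
    · norm_num
  · apply hne9
    rw [hP2]
    unfold T9
    congr 1
  · refine not_sq (-7) ?_ ?_ k1
    · rintro ⟨r, hr⟩
      nlinarith [mul_self_nonneg r]
    · norm_num

/-- `(9, 0)` is a double -/
lemma T9_dbl : ∃ P : (EQm 1).toAffine.Point, P + P = T9 := by
  obtain ⟨X, Y, H, e1, e2⟩ := dblQ ns21 (by norm_num)
  refine ⟨Affine.Point.some 21 84 ns21, ?_⟩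
  have hX : X = 9 := by
    push_cast at e2
    norm_num at e2
    linarith
  have h4 : (Affine.Point.some 21 84 ns21 + Affine.Point.some 21 84 ns21 : (EQm 1).toAffine.Point)
      = Affine.Point.some X Y H := e1
  subst hX
  have hY : Y = 0 := by
    have h5 := eqnQ H
    push_cast at h5
    norm_num at h5
    exact h5
  subst hY
  rw [h4]
  rfl

/-- `(9, 0)` is not four times a point -/
lemma T9_four (P : (EQm 1).toAffine.Point) : (P + P) + (P + P) ≠ T9 := by
  intro h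
  obtain ⟨Q, hQ⟩ : ∃ Q, Q = P + P := ⟨_, rfl⟩
  rw [← hQ] at h
  rcases Q with _ | ⟨x, y, hxy⟩
  · exact T9_ne (h.symm.trans (add_zero _))
  have hR := isR 1
  have hy : y ≠ 0 := by
    rintro rfl
    rw [dbl_T hR hxy] at h
    exact T9_ne h.symm
  obtain ⟨X, Y, H, e1, e2⟩ := dblQ hxy hy
  rw [h] at e1
  have hX : X = 9 := by
    unfold T9 at e1
    injection e1 with h1 h2
    exact h1.symm
  have h1 := eqnQ hxy
  have h2 : (x - 21) * (x + 3) = 0 := by
    have h3 : ((x - 21) * (x + 3)) ^ 2 = 0 := by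
      rw [hX] at e2
      push_cast at e2 h1
      linear_combination -e2 + 36 * h1
    exact pow_eq_zero_iff two_ne_zero |>.1 h3
  -- `x` is a square
  have hsq : IsSquare x := by
    rcases P with _ | ⟨x', y', h'⟩
    · exact absurd (hQ.trans (add_zero _)) (Affine.Point.some_ne_zero hxy)
    · have hy' : y' ≠ 0 := by
        rintro rfl
        rw [dbl_T hR h'] at hQ
        exact Affine.Point.some_ne_zero hxy hQ
      have k1 := dbl_sq hR two_ne_zero h' hy' hxy hQ.symm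
      simpa using k1
  rcases mul_eq_zero.1 h2 with h3 | h3
  · refine not_sq 21 ?_ (by push_cast; linarith) hsq
    exact Pool.Agent.N871.S17.nsq (a := 4) (by norm_num) (by norm_num) (by norm_num)
  · refine not_sq (-3) ?_ (by push_cast; linarith) hsq
    rintro ⟨r, hr⟩
    nlinarith [mul_self_nonneg r]

/-- **The torsion subgroup of `E_1(ℚ)` has order eight.** -/
theorem tors_eight : Nat.card (AddCommGroup.torsion (EQm 1).toAffine.Point) = 8 := by
  have hm : (1 : ℤ) ≠ 0 := one_ne_zero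
  have : Finite (AddCommGroup.torsion (EQm 1).toAffine.Point) := finite_tors (fg_E hm)
  obtain ⟨A, hA⟩ : ∃ A, A = AddCommGroup.torsion (EQm 1).toAffine.Point := ⟨_, rfl⟩
  let f : AddCommGroup.torsion (EQm 1).toAffine.Point →+ AddCommGroup.torsion (EQm 1).toAffine.Point :=
    (AddMonoidHom.id _) + (AddMonoidHom.id _)
  have hf : ∀ x, f x = x + x := fun x => rfl
  have hker : Nat.card f.ker = 4 := by
    have e : f.ker ≃ (T4 hm : Finset _) :=
      { toFun := fun x => ⟨x.1.1, mem_T4 hm (congrArg Subtype.val (show x.1 + x.1 = 0 from x.2))⟩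
        invFun := fun x => ⟨⟨x.1, by
          have h1 : IsOfFinAddOrder x.1 := isOfFinAddOrder_iff_nsmul_eq_zero.2
            ⟨2, two_pos, by rw [two_nsmul]; exact T4_two hm _ x.2⟩
          exact h1⟩, Subtype.ext (T4_two hm _ x.2)⟩
        left_inv := fun x => rfl
        right_inv := fun x => rfl }
    rw [Nat.card_congr e, Nat.card_eq_fintype_card, Fintype.card_coe, T4_card]
  have hcard : Nat.card (AddCommGroup.torsion (EQm 1).toAffine.Point) = 4 * Nat.card f.range := by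
    have h1 := AddSubgroup.card_eq_card_quotient_mul_card_addSubgroup f.ker
    rw [hker] at h1
    have h3 : Nat.card (_ ⧸ f.ker) = Nat.card f.range :=
      Nat.card_congr (QuotientAddGroup.quotientKerEquivRange f).toEquiv
    rw [h1, h3, mul_comm]
  obtain ⟨t, ht, he⟩ : ∃ t : ℕ, Odd t ∧ Nat.card f.range = 2 * t := by
    refine card_two ?_ ?_
    · obtain ⟨P, hP⟩ := T9_dbl
      have hPt : IsOfFinAddOrder P := isOfFinAddOrder_iff_nsmul_eq_zero.2 ⟨4, by norm_num, by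
        have : (4 : ℕ) • P = (P + P) + (P + P) := by abel
        rw [this, hP, T9_two]⟩
      have h9 : T9 ∈ AddCommGroup.torsion (EQm 1).toAffine.Point :=
        isOfFinAddOrder_iff_nsmul_eq_zero.2 ⟨2, two_pos, by rw [two_nsmul]; exact T9_two⟩
      have h9r : (⟨T9, h9⟩ : AddCommGroup.torsion (EQm 1).toAffine.Point) ∈ f.range :=
        ⟨⟨P, hPt⟩, Subtype.ext hP⟩
      have hmem : ∀ x : {x : f.range // x + x = 0}, x.1.1.1 ∈ ({0, T9} :
          Finset (EQm 1).toAffine.Point) := by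
        rintro ⟨⟨y, ⟨z, hz⟩⟩, hy⟩
        have h5 : y + y = 0 := congrArg Subtype.val hy
        have h6 : z.1 + z.1 = y.1 := congrArg Subtype.val hz
        have h7 : y.1 + y.1 = 0 := congrArg Subtype.val h5
        rw [← h6] at h7
        have h8 := dbl_two h7
        rw [h6] at h8
        rw [Finset.mem_insert, Finset.mem_singleton]
        exact h8
      have hbij : Function.Bijective (fun x : {x : f.range // x + x = 0} =>
          (⟨x.1.1.1, hmem x⟩ : ({0, T9} : Finset (EQm 1).toAffine.Point))) := by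
        constructor
        · intro x y hxy
          have h5 : x.1.1.1 = y.1.1.1 :=
            congrArg (Subtype.val (p := fun z => z ∈ ({0, T9} : Finset (EQm 1).toAffine.Point))) hxy
          exact Subtype.ext (Subtype.ext (Subtype.ext h5))
        · rintro ⟨y, hy⟩
          rcases Finset.mem_insert.1 hy with hy1 | hy1
          · exact ⟨⟨0, add_zero _⟩, Subtype.ext hy1.symm⟩
          · exact ⟨⟨⟨⟨T9, h9⟩, h9r⟩, Subtype.ext (Subtype.ext T9_two)⟩,
              Subtype.ext (Finset.mem_singleton.1 hy1).symm⟩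
      have e := Equiv.ofBijective _ hbij
      rw [Nat.card_congr e, Nat.card_eq_fintype_card, Fintype.card_coe,
        Finset.card_pair T9_ne.symm]
    · rintro ⟨y, ⟨z, hz⟩⟩ h
      have h5 : (y + y) + (y + y) = 0 := congrArg Subtype.val h
      have h6 : z.1 + z.1 = y.1 := congrArg Subtype.val hz
      have h7 : (y.1 + y.1) + (y.1 + y.1) = 0 := congrArg Subtype.val h5
      have h8 := dbl_two h7
      apply Subtype.ext
      apply Subtype.ext
      show y.1 + y.1 = 0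
      refine h8.resolve_right ?_
      rw [← h6]
      exact T9_four z.1
  have h8 : Nat.card (AddCommGroup.torsion (EQm 1).toAffine.Point) = 8 * t := by
    rw [hcard, he]; ring
  rw [h8, cof_one squarefree_one (by norm_num) ht h8]

end Pool.Agent.N973.P21G.Td
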