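import Pool.Agent.N974.P21G.Cm

/-!
# The curve `X_0(21)` itself
-/

set_option autoImplicit false

namespace Pool.Agent.N973.P21G.One

open UpperHalfPlane MatrixGroups CongruenceSubgroup ZMod
open Pool.Agent.N974.Gen
open Pool.Agent.N974.GN (re_ne21)
open Pool.Agent.Y687 (cnt RankBSD rankBSD)
open Pool.Agent.W97.MT (ap)
open Pool.Agent.N402.MF21 (f21 eigen21)
open Pool.Agent.N975.S21 (FinPts)

/-- the value at the origin -/
theorem re0_ne {f : CuspForm (Gamma0 21 : Subgroup (GL (Fin 2) ℝ)) 2}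
    (h : Eigen f (fun p => ap E21 p)) : II f 0 ≠ 0 := by
  intro h0
  have P := symbP h (by norm_num : 1 < 21)
  have hh := P.hecke 2 Nat.prime_two (by norm_num) 0
  have hne := re_ne21 h
  rw [Finset.sum_range_succ, Finset.sum_range_succ, Finset.sum_range_zero] at hh
  have h00 : (II f 0).re = 0 := by rw [h0]; rfl
  norm_num at hh
  rw [h00] at hh hne
  apply hne
  linarith

/-- nonvanishing for the curve itself -/
theorem ne_one : ∃ F : ℂ → ℂ, Differentiable ℂ F ∧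
    (∀ s : ℂ, (3 : ℝ) / 2 < s.re →
      HasProd (fun p : {p : ℕ // p.Prime ∧
          ¬ ((p : ℤ) ∣ 2 * (4 * (-5211 * (1 : ℤ) ^ 2) ^ 3 + 27 * (-31050 * (1 : ℤ) ^ 3) ^ 2))} =>
        Pool.Agent.Y687.fac (-5211 * (1 : ℤ) ^ 2) (-31050 * (1 : ℤ) ^ 3) s p) (F s)) ∧
    F 1 ≠ 0 := by
  obtain ⟨F, g1, k1, k2, k3, k4⟩ := exists_fG eigen21 (-5211) (-31050) disc21 bad21 1
    (q := 1) (1 : DirichletCharacter ℂ 1) DirichletCharacter.isPrimitive_one_level_one
    (fun _ => 1) (fun p _ => by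
      have : ((p : ℕ) : ZMod 1) = 1 := Subsingleton.elim _ _
      rw [this, map_one]
      norm_num)
    (fun _ _ => Or.inr (Or.inl rfl)) (fun p hp _ h => by
      exact absurd (Nat.dvd_one.1 h) hp.one_lt.ne')
    (fun p hp hpΔ _ => by
      refine ⟨by norm_num, ?_⟩
      have e : cnt (-5211 * (1 : ℤ) ^ 2) (-31050 * (1 : ℤ) ^ 3) p = cnt (-5211) (-31050) p := by
        norm_num
      show (p : ℤ) - cnt (-5211 * (1 : ℤ) ^ 2) (-31050 * (1 : ℤ) ^ 3) p = 1 * ap E21 p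
      rw [one_mul, e]
      exact good21 hp hpΔ)
  refine ⟨F, k1, k2, k3 ?_⟩
  rintro rfl
  rw [mul_zero] at k4
  have h1 : (1 : DirichletCharacter ℂ 1)⁻¹ = 1 := inv_one
  rw [h1, Fintype.sum_unique] at k4
  have h2 : (((default : (ZMod 1)ˣ) : ZMod 1).val : ℚ) / ((1 : ℕ) : ℚ) = 0 := by
    have : ((default : (ZMod 1)ˣ) : ZMod 1).val = 0 := by
      have := ZMod.val_lt ((default : (ZMod 1)ˣ) : ZMod 1)
      omega
    rw [this]
    norm_num
  rw [h2] at k4
  have h3 : (1 : DirichletCharacter ℂ 1) ((default : (ZMod 1)ˣ) : ZMod 1) = 1 := by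
    have : ((default : (ZMod 1)ˣ) : ZMod 1) = 1 := Subsingleton.elim _ _
    rw [this, map_one]
  rw [h3, one_mul] at k4
  exact re0_ne eigen21 k4.symm

/-- **the rank form of the conjecture for `X_0(21)`** -/
theorem rank_one (hfin : FinPts 1) :
    RankBSD (-5211 * (1 : ℤ) ^ 2) (-31050 * (1 : ℤ) ^ 3) := by
  obtain ⟨F, hF, hFp, hF1⟩ := ne_one
  exact rankBSD hF hFp hF1 hfin

end Pool.Agent.N973.P21G.One
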