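import Pool.Agent.N973.P21G.Lv
import Pool.Agent.N973.P21G.One
import Pool.Agent.N809.D21.Main
import Pool.Agent.N972.GC.Sg21
import Pool.Agent.N637.P21.Short
import Pool.Agent.N975.S21.All

/-!
# Level `21`: all quadratic twists
-/

set_option autoImplicit false

open Finset

namespace Pool.Agent.N973.P21G

open Pool.Agent.N877.P21G
open Pool.Agent.N972.GC (CY CM C21)
open Pool.Agent.N974.RQ (mA)
open Pool.Agent.N969.RQ (R21 R21r Fd)
open Pool.Agent.Y687 (RankBSD)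
open Pool.Agent.N218.P15G.Lneg (mN)
open Pool.Agent.N975.S21 (FinPts finPts_of)
open Pool.Agent.N637.P21 (WS Ao Ae crit_ao_S crit_ae_S)
open Pool.Agent.N875.X15 (Fin2)
open Pool.Agent.N809.PQ (Sg21 w21 sg21_parity)
open Pool.Agent.N969.P15 (Qc Qe Ev)

/-! ### discriminants -/

/-- the absolute value of the discriminant -/
def D (m : ℤ) : ℕ := if m % 4 = 1 then m.natAbs else 4 * m.natAbs

theorem mod4 {m : ℤ} (hs : Squarefree m) : m % 4 = 1 ∨ m % 4 = 2 ∨ m % 4 = 3 := by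
  have h0 : ¬ m % 4 = 0 := by
    intro h
    have h1 : (2 : ℤ) * 2 ∣ m := by
      rw [show (2 : ℤ) * 2 = 4 by norm_num]
      exact Int.dvd_of_emod_eq_zero h
    have h2 := hs 2 h1
    rw [Int.isUnit_iff] at h2
    omega
  omega

theorem Fd_D {m : ℤ} (hs : Squarefree m) (h0 : 0 < m) (h1 : m ≠ 1) : Fd (D m) := by
  have hn : Squarefree m.natAbs := Int.squarefree_natAbs.2 hs
  unfold D
  split_ifs with h4
  · exact ⟨by omega, Or.inl ⟨hn, by omega⟩⟩
  · have := mod4 hs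
    exact ⟨by omega, Or.inr ⟨m.natAbs, rfl, hn, by omega⟩⟩

theorem Fn_D {m : ℤ} (hs : Squarefree m) (h0 : m < 0) : Fn (D m) := by
  have hn : Squarefree m.natAbs := Int.squarefree_natAbs.2 hs
  unfold D
  split_ifs with h4
  · exact Or.inl ⟨hn, by omega⟩
  · refine Or.inr ⟨m.natAbs, rfl, hn, ?_⟩
    have := mod4 hs
    omega

theorem mA_D {m : ℤ} (hs : Squarefree m) (h0 : 0 < m) : (mA (D m) : ℤ) = m := by
  have h := mod4 hs
  unfold mA D
  split_ifs with h2 h4 h4 <;> omega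

theorem mN_D {m : ℤ} (hs : Squarefree m) (h0 : m < 0) : (-(mN (D m) : ℤ)) = m := by
  have h := mod4 hs
  unfold mN D
  split_ifs with h2 h4 h4 <;> omega

theorem D_mod3 (m : ℤ) : D m % 3 = m.natAbs % 3 := by
  unfold D
  split_ifs <;> omega

theorem D_mod7 (m : ℤ) : D m % 7 = m.natAbs % 7 ∨ D m % 7 = 4 * m.natAbs % 7 := by
  unfold D
  split_ifs
  · exact Or.inl rfl
  · exact Or.inr rfl

theorem jac7 {d : ℕ} : (jacobiSym d 7 = 1 ↔ d % 7 = 1 ∨ d % 7 = 2 ∨ d % 7 = 4) ∧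
    (jacobiSym d 7 = -1 ↔ d % 7 = 3 ∨ d % 7 = 5 ∨ d % 7 = 6) := by
  rw [jacobiSym.mod_left, show ((d : ℤ) % ((7 : ℕ) : ℤ)) = ((d % 7 : ℕ) : ℤ) by push_cast; rfl]
  have h := Nat.mod_lt d (show 0 < 7 by norm_num)
  interval_cases h7 : d % 7 <;> norm_num

theorem D7 {m : ℤ} {k : ℕ} (h : D m % 7 = k % 7 ∨ D m % 7 = 4 * k % 7) :
    (D m % 7 = 0 ∧ k % 7 = 0) ∨
    ((D m % 7 = 1 ∨ D m % 7 = 2 ∨ D m % 7 = 4) ∧ (k % 7 = 1 ∨ k % 7 = 2 ∨ k % 7 = 4)) ∨
    ((D m % 7 = 3 ∨ D m % 7 = 5 ∨ D m % 7 = 6) ∧ (k % 7 = 3 ∨ k % 7 = 5 ∨ k % 7 = 6)) := by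
  have h2 := Nat.mod_lt k (show 0 < 7 by norm_num)
  have h3 : 4 * k % 7 = 4 * (k % 7) % 7 := by omega
  rw [h3] at h
  generalize D m % 7 = d at *
  interval_cases hk : k % 7 <;> omega

theorem kp {m : ℤ} {k : ℕ} (h : m = k) : m % 7 = ((k % 7 : ℕ) : ℤ) := by omega

theorem kn {m : ℤ} {k : ℕ} (h : m = -(k : ℤ)) : 0 ≤ m % 7 ∧ (m % 7 + ((k % 7 : ℕ) : ℤ) = 0 ∨
    m % 7 + ((k % 7 : ℕ) : ℤ) = 7) := by omega

/-! ### the four old classes -/

/-- the classes with `3` inert or ramified and `7` split or ramified -/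
theorem rank_old {n : ℕ} (hn : Fn n) (h3 : n % 3 ≠ 2)
    (h7 : n % 7 = 0 ∨ n % 7 = 3 ∨ n % 7 = 5 ∨ n % 7 = 6) (hF : Fin2 (WS (-(mN n : ℤ)))) :
    RankBSD (-5211 * (-(mN n : ℤ)) ^ 2) (-31050 * (-(mN n : ℤ)) ^ 3) := by
  rcases hn with ⟨hs, h4⟩ | hE
  · have e : mN n = n := Pool.Agent.N218.P15G.Lneg.mN_odd (by omega)
    rw [e] at hF ⊢
    have hA : Ao n := ⟨hs, h4, h3, h7⟩
    exact Pool.Agent.N975.S21.All.bsd_odd hA ((crit_ao_S hA).1 hF)
  · have e : mN n = n / 4 := Pool.Agent.N218.P15G.Lneg.mN_even (Pool.Agent.N218.P15G.Lneg.ev2 hE)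
    rw [e] at hF ⊢
    have hA : Ae n := ⟨hE, h3, h7⟩
    exact Pool.Agent.N975.S21.All.bsd_even hA ((crit_ae_S hA).1 hF)

/-! ### all twists -/

/-- the criteria -/
structure Crit : Prop where
  y7 : ∀ A : ℕ, (Ai A ∨ A0 A) → Sg21 (mA A) → CY (-7) A
  y3 : ∀ A : ℕ, (R21 A ∨ R21r A) → Sg21 (mA A) → C21 A
  ns : ∀ n : ℕ, Kn n → Sg21 (-(mN n : ℤ)) → CM (-7) 3 n

/-- **all twists of `X_0(21)`** -/
theorem rank_all_of (H : Crit) {m : ℤ} (hs : Squarefree m) (hF : Fin2 (WS m)) :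
    RankBSD (-5211 * m ^ 2) (-31050 * m ^ 3) := by
  have hm0 := hs.ne_zero
  have hfin : FinPts m := finPts_of hm0 hF
  by_cases h1 : m = 1
  · subst h1
    exact Pool.Agent.N973.P21G.One.rank_one hfin
  have hS : Sg21 m := (Pool.Agent.N809.D21.fin2_iff hs h1).1 hF
  have hw := sg21_parity hs h1 hS
  unfold w21 at hw
  obtain ⟨k, hk⟩ : ∃ k : ℕ, m.natAbs = k := ⟨_, rfl⟩
  have h3 := D_mod3 m
  have h7' := D_mod7 m
  rw [hk] at h3 h7'
  have h7 := D7 h7'
  have hk7' := Nat.mod_lt k (show 0 < 7 by norm_num)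
  rcases lt_or_gt_of_ne hm0 with hneg | hpos
  · have hmk : m = -(k : ℤ) := by omega
    have hkn := kn hmk
    rw [if_pos hneg] at hw
    have hFn := Fn_D hs hneg
    have hN := mN_D hs hneg
    by_cases c3 : m % 3 = 1
    · rw [if_pos c3] at hw
      have c7 : m % 7 = 3 ∨ m % 7 = 5 ∨ m % 7 = 6 := by
        by_contra h
        rw [if_neg h] at hw
        norm_num at hw
      have hk7 : k % 7 = 1 ∨ k % 7 = 2 ∨ k % 7 = 4 := by clear hw h7 h7' h3 hmk; generalize k % 7 = r at *; generalize m % 7 = t at *; omega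
      have hn : Kn (D m) := ⟨hFn, by omega, by
        rcases h7 with h | h | h
        · omega
        · exact h.1
        · omega⟩
      have := rank_Kn hn (H.ns (D m) hn (by rw [hN]; exact hS)) (by rw [hN]; exact hfin)
      rw [hN] at this
      exact this
    · rw [if_neg c3] at hw
      have c7 : ¬ (m % 7 = 3 ∨ m % 7 = 5 ∨ m % 7 = 6) := by
        intro h
        rw [if_pos h] at hw
        norm_num at hw
      have hk7 : k % 7 = 0 ∨ k % 7 = 3 ∨ k % 7 = 5 ∨ k % 7 = 6 := by clear hw h7 h7' h3 hmk; generalize k % 7 = r at *; generalize m % 7 = t at *; omega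
      have := rank_old hFn (by omega) (by
        rcases h7 with h | h | h
        · exact Or.inl h.1
        · omega
        · exact Or.inr h.1) (by rw [hN]; exact hF)
      rw [hN] at this
      exact this
  · have hmk : m = (k : ℤ) := by omega
    have hkp := kp hmk
    rw [if_neg (by omega)] at hw
    have hFd := Fd_D hs hpos h1
    have hA := mA_D hs hpos
    by_cases c3 : m % 3 = 1
    · rw [if_pos c3] at hw
      have c7 : ¬ (m % 7 = 3 ∨ m % 7 = 5 ∨ m % 7 = 6) := by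
        intro h
        rw [if_pos h] at hw
        norm_num at hw
      have hk7 : k % 7 = 0 ∨ k % 7 = 1 ∨ k % 7 = 2 ∨ k % 7 = 4 := by clear hw h7 h7' h3 hmk; generalize k % 7 = r at *; generalize m % 7 = t at *; omega
      have hn : R21 (D m) ∨ R21r (D m) := by
        rcases h7 with h | h | h
        · exact Or.inr ⟨hFd, by omega, by omega⟩
        · exact Or.inl ⟨hFd, by omega, jac7.1.2 h.1⟩
        · omega
      have := rank_R21 hn (H.y3 _ hn (by rw [hA]; exact hS)) (by rw [hA]; exact hfin)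
      rw [hA] at this
      exact this
    · rw [if_neg c3] at hw
      have c7 : m % 7 = 3 ∨ m % 7 = 5 ∨ m % 7 = 6 := by
        by_contra h
        rw [if_neg h] at hw
        norm_num at hw
      have hk7 : k % 7 = 3 ∨ k % 7 = 5 ∨ k % 7 = 6 := by clear hw h7 h7' h3 hmk; generalize k % 7 = r at *; generalize m % 7 = t at *; omega
      have hj : jacobiSym (D m : ℕ) 7 = -1 := by
        rcases h7 with h | h | h
        · omega
        · omega
        · exact jac7.2.2 h.1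
      have hn : Ai (D m) ∨ A0 (D m) := by
        by_cases d3 : m % 3 = 0
        · exact Or.inr ⟨hFd, by omega, hj⟩
        · exact Or.inl ⟨hFd, by omega, hj⟩
      have := rank_Ai hn (H.y7 _ hn (by rw [hA]; exact hS)) (by rw [hA]; exact hfin)
      rw [hA] at this
      exact this

/-- the criteria -/
theorem crit : Crit where
  y7 := fun _ h => (Pool.Agent.N972.GC.sg21_A h).1
  y3 := fun _ h => (Pool.Agent.N972.GC.sg21_R' h).1
  ns := fun _ h => (Pool.Agent.N972.GC.sg21_Kn h).1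

/-- **all twists of `X_0(21)`: finitely many points and `Ш[2] = 0` imply the rank form of the
conjecture, with `L(1) ≠ 0`** -/
theorem rank21 {m : ℤ} (hs : Squarefree m) (hF : Fin2 (WS m)) :
    RankBSD (-5211 * m ^ 2) (-31050 * m ^ 3) := rank_all_of crit hs hF

end Pool.Agent.N973.P21G
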