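import Pool.Agent.N973.P21G.Vx

/-!
# Level 21: the central value of the curve `X_0(21)` itself
-/

set_option autoImplicit false
set_option linter.style.haveILetI false

open Complex Filter Topology Set UpperHalfPlane MatrixGroups CongruenceSubgroup ZMod

namespace Pool.Agent.N973.P21G

open Pool.Agent.N974.Gen
open Pool.Agent.N402.MF21 (f21 eigen21)
open Pool.Agent.N969.P15 (un)
open Pool.Agent.W97.MT (ap)
open Pool.Agent.Y700 (IsL tamProd Omega)
open Pool.Agent.N974.P21G (sig ky sig_mul)
open Pool.Agent.N218.T21 (EE Kd t3 t7 tamProd_EE min_EE)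
open Pool.Agent.N637.P21 (WN c4_WN c6_WN)
open Pool.Agent.N877.S21 (in21)

theorem ky_zero : ky = -(4 * (II f21 0).re) := by
  have P := symbP eigen21 (by norm_num : 1 < 21)
  have h4 := P.hecke 2 Nat.prime_two (by norm_num) 0
  have e2 : ap E21 2 = -1 := ap21_2
  simp only [Finset.sum_range_succ, Finset.sum_range_zero] at h4
  rw [e2] at h4
  norm_num at h4
  show (II f21 (1 / 2)).re - (II f21 0).re = _
  linarith

theorem EE_one : EE 1 = WN 1 := if_pos (by norm_num)

/-- the value at the centre for the curve itself -/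
theorem one_val (hk : Hky) : 0 < Omega (EE 1) ∧ ∃ f : ℂ → ℂ, IsL (EE 1) f ∧
    f 1 = ((Omega (EE 1) * tamProd (EE 1) / 64 : ℝ) : ℂ) := by
  obtain ⟨L, Op, Om, hOp, hOm, g2, g3, hL⟩ := Pool.Agent.N975.LatGen.lat21
  have hky := hk L Op Om hOp hOm g2 g3 hL
  have h1 : (1 : ℤ) % 4 = 1 := by norm_num
  have hΩ := Pool.Agent.N971.EX.omega_pos L Op Om hOp hOm
    (c4 := 193) (c6 := 575) (by rw [g2]; push_cast; rfl) (by rw [g3]; push_cast; rfl) hL 1
    (by omega) (EE 1) (by rw [EE_one, c4_WN h1]; norm_num) (by rw [EE_one, c6_WN h1]; norm_num)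
  have hΩ' : Omega (EE 1) = 2 * Op := by
    rw [hΩ]
    simp
  have hT : tamProd (EE 1) = 8 := by
    have h := tamProd_EE (m := 1) squarefree_one
    rw [h]
    have e : Kd 1 = 1 := rfl
    rw [e]
    simp [t3, t7]
  obtain ⟨g, hg, hg1⟩ := Pool.Agent.N971.EX.exists_LG eigen21 (EE 1) (q := 1)
    (1 : DirichletCharacter ℂ 1) DirichletCharacter.isPrimitive_one_level_one inv_one
    (fun _ => 1) (fun u => by
      have : ((u : ℕ) : ZMod 1) = 1 := Subsingleton.elim _ _
      rw [this, map_one]
      norm_num) (fun _ _ => Or.inr (Or.inl rfl)) (fun p hp => by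
        rw [EE_one]
        have := in21.apO 1 (by norm_num) p hp
        simpa using this) (fun p hp => by
        rw [EE_one]
        have := in21.dO 1 h1 one_ne_zero p hp
        rw [this]
        have h2 : ¬ p ∣ (1 : ℤ).natAbs := by
          intro h3
          exact hp.one_lt.ne' (Nat.dvd_one.1 h3)
        constructor
        · rintro (h | h)
          · exact Or.inl h
          · exact absurd h h2
        · rintro (h | h)
          · exact Or.inl h
          · exact absurd h one_ne_zero)
  refine ⟨by rw [hΩ']; positivity, g, hg, ?_⟩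
  have hG : gaussSum (1 : DirichletCharacter ℂ 1) (stdAddChar (N := 1)) = 1 := by
    unfold gaussSum
    rw [Fintype.sum_eq_single 0 (fun b hb => absurd (Subsingleton.elim b 0) hb)]
    have e : (0 : ZMod 1) = 1 := Subsingleton.elim _ _
    have e2 : (1 : DirichletCharacter ℂ 1) (0 : ZMod 1) = 1 := by rw [e, map_one]
    rw [AddChar.map_zero_eq_one, mul_one]
    exact e2
  have hun : un 1 = {0} := by decide
  rw [hG, hun, Finset.sum_singleton, one_mul] at hg1
  have him := II_zero_im f21 eigen21.real
  have hre : (II f21 0).re = Op / 4 := by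
    have := ky_zero
    rw [hky] at this
    linarith
  rw [hg1, hΩ', hT]
  have e1 : (((0 : ℕ) : ℚ) / ((1 : ℕ) : ℚ)) = 0 := by norm_num
  rw [e1]
  apply Complex.ext
  · simp only [Int.cast_one, one_mul, Complex.ofReal_re]
    rw [hre]
    push_cast
    ring
  · simp only [Int.cast_one, one_mul, Complex.ofReal_im]
    exact him

end Pool.Agent.N973.P21G
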