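import Pool.Agent.N973.P21G.Sg
import Pool.Agent.N877.S21.Rl

/-!
# The exact relations of the odd symbol of level `21`
-/

set_option autoImplicit false

open Finset

namespace Pool.Agent.N973.P21G

open Pool.Agent.N969.P15 (un chE Ev Qe Qc)
open Pool.Agent.N969.P17G (chM)
open Pool.Agent.N877.P21 (cc Cls0 Cls0e Cl7 Cl7e Cl21 Cl21e Cl3 Cl3e Sp7)
open Pool.Agent.N974.Gen (Symb21 II)
open Pool.Agent.N975.S21 (Sy eq0 eq0E eq7 eq7E eq21 eq21E eq3 eq3E)
open Pool.Agent.N975.S21.All (s_DIAG s_DIAGE s_DIAG7 s_DIAG7E s_DIAG21 s_DIAG21E s_DIAG3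
  s_DIAG3E s_PAR s_PARE s_PARA3 s_PARA3E)
open Pool.Agent.N637.P21 (t2 sy_of pow4 t2_one t2_two sp7_ndvd Ao Ae ao_cases ae_cases exists_symb21L)
open Pool.Agent.N402.MF21 (f21 eigen21 param21 tends0 tends3 tends7 hW21 hW3)
open Pool.Agent.N877.P21G (Kn Lvs kn_sum)
open Pool.Agent.N972.GC (CM)

/-- the exact relation: the sum of the odd symbol over the classes -/
def RelX (n : ℕ) (w : ℕ → ℤ) (T : ℕ) (Q : Prop) : Prop := ∃ y : ℤ, (Odd y ↔ Q) ∧
  ∀ (s : ℚ → ℤ) (a : ℕ → ℤ), Symb21 s a → s (1 / 3) = 1 →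
    4 * ∑ u ∈ un n, w u * s ((u : ℚ) / n) = (T : ℤ) * y ^ 2

/-- there is an exact symbol -/
theorem exists_exact : ∃ (s : ℚ → ℤ) (a : ℕ → ℤ), Symb21 s a ∧ s (1 / 3) = 1 := by
  obtain ⟨L, Op, Om, hOp, hOm, g2, g3, hL⟩ := Pool.Agent.N975.LatGen.lat21
  obtain ⟨sm, hsm, hsym⟩ := exists_symb21L L Op Om hOp hOm g2 g3 hL eigen21 (param21 L g2 g3)
    tends0 tends7 tends3 hW21 hW3
  exact ⟨sm, _, hsym, s13_one hOp hOm g2 g3 hL hsm hsym⟩

/-- division by `9` -/
theorem relX_of_nine {n : ℕ} {w : ℕ → ℤ} {T : ℕ} {Q : Prop} (hT : IsCoprime (9 : ℤ) (T : ℤ))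
    {y : ℤ} (hy : Odd y ↔ Q)
    (h : ∀ (s : ℚ → ℤ) (f : ℕ → ℤ), Symb21 s f → s (1 / 3) = 1 →
      36 * ∑ u ∈ un n, w u * s ((u : ℚ) / n) = (T : ℤ) * y ^ 2) : RelX n w T Q := by
  obtain ⟨s0, a0, g0, h0⟩ := exists_exact
  have h1 := h s0 a0 g0 h0
  have h2 : (9 : ℤ) ∣ T * y ^ 2 := by
    rw [← h1]
    exact ⟨4 * ∑ u ∈ un n, w u * s0 ((u : ℚ) / n), by ring⟩
  have h3 : (9 : ℤ) ∣ y ^ 2 := hT.dvd_of_dvd_mul_left h2
  have h4 : (3 : ℤ) ∣ y := by
    have h5 : (3 : ℤ) ^ 2 ∣ y ^ 2 := by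
      rw [show (3 : ℤ) ^ 2 = 9 by norm_num]
      exact h3
    exact (Int.pow_dvd_pow_iff two_ne_zero).1 h5
  obtain ⟨z, rfl⟩ := h4
  refine ⟨z, ?_, fun s f g h13 => ?_⟩
  · rw [← hy, Int.odd_mul]
    constructor
    · intro h5
      exact ⟨by decide, h5⟩
    · intro h5
      exact h5.2
  · have h5 := h s f g h13
    have h6 : (9 : ℤ) * (4 * ∑ u ∈ un n, w u * s ((u : ℚ) / n)) = 9 * (T * z ^ 2) := by
      linear_combination h5
    exact mul_left_cancel₀ (by norm_num) h6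

theorem t2_cases (p n : ℕ) : t2 p n = 1 ∨ t2 p n = 2 := by
  unfold t2
  split_ifs
  · exact Or.inl rfl
  · exact Or.inr rfl

theorem cop_T (k p q n : ℕ) : IsCoprime (9 : ℤ) ((4 ^ k * (t2 p n * t2 q n) : ℕ) : ℤ) := by
  have h2 : IsCoprime (9 : ℤ) 2 := by norm_num
  have h4 : IsCoprime (9 : ℤ) 4 := by norm_num
  have h1 : IsCoprime (9 : ℤ) 1 := isCoprime_one_right
  have ht : ∀ p, IsCoprime (9 : ℤ) ((t2 p n : ℕ) : ℤ) := by
    intro p
    rcases t2_cases p n with h | h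
    · rw [h]; exact_mod_cast h1
    · rw [h]; exact_mod_cast h2
  push_cast
  exact h4.pow_right.mul_right ((ht p).mul_right (ht q))

/-- the relation from the value of the sum -/
theorem relX_of {n : ℕ} {w : ℕ → ℤ} {Q : Prop} {k : ℕ}
    (hP : ∃ y : ℤ, cc n = 2 ^ k * y ∧ (Odd y ↔ Q)) (a b : ℤ) (ha : a ≠ 0)
    (hr : b * 4 ^ k = a * ((4 ^ n.primeFactors.card * (t2 3 n * t2 7 n) : ℕ) : ℤ))
    (h : ∀ (s : ℚ → ℤ) (f : ℕ → ℤ), Symb21 s f →
      a * (36 * ∑ u ∈ un n, w u * s ((u : ℚ) / n)) = b * (s (1 / 3) * cc n ^ 2)) :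
    RelX n w (4 ^ n.primeFactors.card * (t2 3 n * t2 7 n)) Q := by
  obtain ⟨y, hy, hQ⟩ := hP
  refine relX_of_nine (cop_T _ _ _ _) hQ fun s f g h13 => ?_
  have h1 := h s f g
  rw [hy, pow4, h13] at h1
  refine mul_left_cancel₀ ha ?_
  linear_combination h1 + y ^ 2 * hr

/-- **all odd discriminants of the definite classes** -/
theorem relX_odd {n : ℕ} (h : Ao n) : RelX n (fun u => jacobiSym u n)
    (4 ^ n.primeFactors.card * (t2 3 n * t2 7 n)) (Qc n) := by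
  rcases ao_cases h with h' | h' | h' | h'
  · obtain ⟨h1, h2, h3, h4⟩ := id h'
    refine relX_of (s_PAR n (Or.inl h')) 1 1 one_ne_zero ?_ fun s a g => ?_
    · rw [t2_two (by omega : ¬ 3 ∣ n), t2_two (sp7_ndvd h4)]
      push_cast
      ring
    · have e := eq0 s_DIAG (sy_of g) h'
      simp only [Int.cast_id] at e
      linear_combination e
  · obtain ⟨h1, h2, h3, h4⟩ := id h'
    refine relX_of (s_PAR n (Or.inr h')) 2 1 two_ne_zero ?_ fun s a g => ?_
    · rw [t2_two (by omega : ¬ 3 ∣ n), t2_one h3]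
      push_cast
      ring
    · have e := eq7 s_DIAG7 (sy_of g) h'
      simp only [Int.cast_id] at e
      linear_combination e
  · obtain ⟨h1, h2, h3, h4⟩ := id h'
    refine relX_of (s_PARA3 n (Or.inl h')) 1 1 one_ne_zero ?_ fun s a g => ?_
    · rw [t2_one h4, t2_one h3]
      push_cast
      ring
    · have e := eq21 s_DIAG21 (sy_of g) h'
      simp only [Int.cast_id] at e
      linear_combination e
  · obtain ⟨h1, h2, h3, h4⟩ := id h'
    refine relX_of (s_PARA3 n (Or.inr h')) 1 2 one_ne_zero ?_ fun s a g => ?_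
    · rw [t2_one h4, t2_two (sp7_ndvd h3)]
      push_cast
      ring
    · have e := eq3 s_DIAG3 (sy_of g) h'
      simp only [Int.cast_id] at e
      linear_combination 2 * e

/-- **all even discriminants of the definite classes** -/
theorem relX_even {n : ℕ} (h : Ae n) : RelX n (fun u => chE n u)
    (4 ^ n.primeFactors.card * (t2 3 n * t2 7 n)) (Qe n) := by
  rcases ae_cases h with h' | h' | h' | h'
  · obtain ⟨h1, h3, h4⟩ := id h'
    refine relX_of (s_PARE n (Or.inl h')) 1 1 one_ne_zero ?_ fun s a g => ?_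
    · rw [t2_two (by omega : ¬ 3 ∣ n), t2_two (sp7_ndvd h4)]
      push_cast
      ring
    · have e := eq0E s_DIAGE (sy_of g) h'
      simp only [Int.cast_id] at e
      linear_combination e
  · obtain ⟨h1, h3, h4⟩ := id h'
    refine relX_of (s_PARE n (Or.inr h')) 2 1 two_ne_zero ?_ fun s a g => ?_
    · rw [t2_two (by omega : ¬ 3 ∣ n), t2_one h3]
      push_cast
      ring
    · have e := eq7E s_DIAG7E (sy_of g) h'
      simp only [Int.cast_id] at e
      linear_combination e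
  · obtain ⟨h1, h3, h4⟩ := id h'
    refine relX_of (s_PARA3E n (Or.inl h')) 1 1 one_ne_zero ?_ fun s a g => ?_
    · rw [t2_one h4, t2_one h3]
      push_cast
      ring
    · have e := eq21E s_DIAG21E (sy_of g) h'
      simp only [Int.cast_id] at e
      linear_combination e
  · obtain ⟨h1, h3, h4⟩ := id h'
    refine relX_of (s_PARA3E n (Or.inr h')) 1 2 one_ne_zero ?_ fun s a g => ?_
    · rw [t2_one h4, t2_two (sp7_ndvd h3)]
      push_cast
      ring
    · have e := eq3E s_DIAG3E (sy_of g) h'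
      simp only [Int.cast_id] at e
      linear_combination 2 * e

/-- **the discriminants in which `3` and `7` split or ramify suitably, class `Kn`** -/
theorem relX_Kn (h : Lvs) {n : ℕ} (hn : Kn n) {w : ℕ → ℤ} (hw : ∀ u : ℕ, w u = chM n u) :
    RelX n w (4 ^ n.primeFactors.card * 8) (CM (-7) 3 n) := by
  obtain ⟨y, hy, hy2⟩ := h.cnv hn
  refine ⟨y, hy2, fun s f g h13 => ?_⟩
  have h1 := kn_sum (R := ℤ) h.diagn (Pool.Agent.N637.P21.sy_of g) hn
  simp only [Int.cast_id] at h1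
  simp only [hw]
  have e4 : ((4 ^ n.primeFactors.card * 8 : ℕ) : ℤ) = 2 * (2 ^ (n.primeFactors.card + 1)) ^ 2 := by
    push_cast
    rw [← pow_mul, mul_comm (n.primeFactors.card + 1) 2, pow_mul]
    norm_num
    rw [pow_succ]
    ring
  rw [e4]
  rw [hy, h13] at h1
  linear_combination 2 * h1

theorem RelX.congr {n : ℕ} {w : ℕ → ℤ} {T T' : ℕ} {Q Q' : Prop} (h : RelX n w T Q) (hT : T = T')
    (hQ : Q ↔ Q') : RelX n w T' Q' := by
  subst hT
  obtain ⟨y, h1, h2⟩ := h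
  exact ⟨y, h1.trans hQ, h2⟩

end Pool.Agent.N973.P21G
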