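import Pool.Agent.N973.P21G.Px
import Pool.Agent.N973.P21G.Rx
import Pool.Agent.N877.S21.In
import Pool.Agent.N972.S21.Val

/-!
# Level 21: the exact central values of the twists by all squarefree integers
-/

set_option autoImplicit false

namespace Pool.Agent.N973.P21G

open Pool.Agent.N969.P15 (Ev chE Qc Qe)
open Pool.Agent.N969.P17G (chP chM)
open Pool.Agent.N969.RQ (Fd R21 R21r)
open Pool.Agent.N877.P21G (Fn I7 Ai A0 Kn lvs)
open Pool.Agent.N218.T21 (EE Kd t3 t7 tamProd_EE min_EE)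
open Pool.Agent.N637.P21 (Ao Ae t2 WN Em WNQ EQm c4_WN c6_WN c4_Em c6_Em fin2_N crit_ao crit_ae)
open Pool.Agent.N809.PQ (w21 Sg21)
open Pool.Agent.N972.GC (CY CM C21)
open Pool.Agent.N974.Gen (E21)
open Pool.Agent.W97.MT (ap)
open Pool.Agent.Y700 (IsL tamProd Omega)
open Pool.Agent.N402.P21G (chM_odd chM_even)
open Pool.Agent.N877.S21

/-- the input for the negative discriminants -/
structure HN : Prop where
  o : ∀ {n : ℕ}, Squarefree n → n % 4 = 3 → ∀ (W : WeierstrassCurve ℤ),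
    W.c₄ = 193 * (n : ℤ) ^ 2 → W.c₆ = -(575 * (n : ℤ) ^ 3) →
    (∀ p : ℕ, p.Prime → ap W p = ap E21 p * jacobiSym p n) →
    (∀ p : ℕ, p.Prime → ((p : ℤ) ∣ W.Δ ↔ p ∣ 21 ∨ p ∣ n)) → ∀ {T : ℕ}, tamProd W = T →
    ∀ {Q : Prop}, RelX n (fun u => jacobiSym u n) T Q → CX W Q
  e : ∀ {n : ℕ}, Ev n → ∀ (W : WeierstrassCurve ℤ),
    W.c₄ = 193 * (n : ℤ) ^ 2 → W.c₆ = -(575 * (n : ℤ) ^ 3) →
    (∀ p : ℕ, p.Prime → ap W p = ap E21 p * chE n p) →
    (∀ p : ℕ, p.Prime → ((p : ℤ) ∣ W.Δ ↔ p ∣ 21 ∨ p ∣ n)) → ∀ {T : ℕ}, tamProd W = T →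
    ∀ {Q : Prop}, RelX n (fun u => chE n u) T Q → CX W Q

/-- the values for the negative discriminants (helper972) -/
theorem hN0 : HN where
  o := fun hs h4 W hc4 hc6 ha hΔ _ hT _ hR =>
    Pool.Agent.N972.S21.negOX hs h4 W hc4 hc6 ha hΔ hT hR
  e := fun hE W hc4 hc6 ha hΔ _ hT _ hR =>
    Pool.Agent.N972.S21.negEX hE W hc4 hc6 ha hΔ hT hR

section

variable (hk : Hky) (hN : HN)
include hk hN

omit hN in
/-- positive discriminants -/
theorem pos_valX {m : ℤ} (hs : Squarefree m) (h0 : 0 < m) (h1 : m ≠ 1) {Q : Prop}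
    (hR : RelP (Kd m) (4 ^ (Kd m).primeFactors.card * (t3 m * t7 m)) Q) : CX (EE m) Q := by
  have hF := fd_of hs h0 h1
  have hT := tamProd_EE hs
  obtain ⟨n, rfl⟩ : ∃ n : ℕ, m = n := ⟨m.toNat, by omega⟩
  have hs' : Squarefree n := by exact_mod_cast Int.squarefree_natCast.1 hs
  by_cases h4 : ((n : ℕ) : ℤ) % 4 = 1
  · have eK : Kd (n : ℤ) = n := by
      unfold Kd
      rw [if_pos h4, Int.natAbs_natCast]
    have eE : EE (n : ℤ) = WN n := if_pos h4
    rw [eK] at hT hR
    rw [eE] at hT ⊢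
    refine posOX hk hs' (by omega) (by omega) (WN n) (c4_WN h4) (c6_WN h4)
      (in21.apO n (by omega)) ?_ hT hR
    intro p hp
    have := in21.dO n h4 (by omega) p hp
    rwa [Int.natAbs_natCast] at this
  · have eK : Kd (n : ℤ) = 4 * n := by
      unfold Kd
      rw [if_neg h4, Int.natAbs_natCast]
    have eE : EE (n : ℤ) = Em n := if_neg h4
    have e4 : 4 * n / 4 = n := by omega
    rw [eK] at hT hR hF
    rw [eE] at hT ⊢
    refine posEX hk hF ⟨2 * n, by ring⟩ (Em n) ?_ ?_ ?_ ?_ hT hR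
    · rw [c4_Em]; push_cast; ring
    · rw [c6_Em]; push_cast; ring
    · have := in21.apE (4 * n) hF ⟨2 * n, by ring⟩
      rwa [e4] at this
    · intro p hp
      have := in21.dE n (by omega) p hp
      rwa [Int.natAbs_natCast] at this

omit hk in
/-- negative discriminants -/
theorem neg_valX {m : ℤ} (hs : Squarefree m) (h0 : m < 0) {Q : Prop}
    (hO : m % 4 = 1 → RelX (Kd m) (fun u => jacobiSym u (Kd m))
      (4 ^ (Kd m).primeFactors.card * (t3 m * t7 m)) Q)
    (hE : m % 4 ≠ 1 → RelX (Kd m) (fun u => chE (Kd m) u)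
      (4 ^ (Kd m).primeFactors.card * (t3 m * t7 m)) Q) : CX (EE m) Q := by
  have hF := fn_of hs h0
  have hT := tamProd_EE hs
  obtain ⟨n, rfl⟩ : ∃ n : ℕ, m = -n := ⟨m.natAbs, by omega⟩
  have hn : (-(n : ℤ)).natAbs = n := by omega
  by_cases h4 : (-(n : ℤ)) % 4 = 1
  · have eK : Kd (-(n : ℤ)) = n := by
      unfold Kd
      rw [if_pos h4, hn]
    have eE : EE (-(n : ℤ)) = WN (-(n : ℤ)) := if_pos h4
    have hR := hO h4
    rw [eK] at hT hR hF
    rw [eE] at hT ⊢
    rcases hF with ⟨hs', h5, -⟩ | ⟨-, h5⟩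
    · refine hN.o hs' h5 (WN (-(n : ℤ))) ?_ ?_ (fun p hp => ?_) ?_ hT hR
      · rw [c4_WN h4]; ring
      · rw [c6_WN h4]; ring
      · exact Pool.Agent.N637.P21.ap_WN h5 p hp
      · intro p hp
        have := in21.dO (-(n : ℤ)) h4 (by omega) p hp
        rwa [hn] at this
    · exact absurd h4 h5
  · have eK : Kd (-(n : ℤ)) = 4 * n := by
      unfold Kd
      rw [if_neg h4, hn]
    have eE : EE (-(n : ℤ)) = Em (-(n : ℤ)) := if_neg h4
    have e4 : 4 * n / 4 = n := by omega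
    have hR := hE h4
    rw [eK] at hT hR hF
    rw [eE] at hT ⊢
    rcases hF with ⟨-, -, h5⟩ | ⟨hEv, -⟩
    · exact absurd h5 h4
    · refine hN.e hEv (Em (-(n : ℤ))) ?_ ?_ ?_ ?_ hT hR
      · rw [c4_Em]; push_cast; ring
      · rw [c6_Em]; push_cast; ring
      · intro p hp
        have := Pool.Agent.N637.P21.ap_E hEv p hp
        rwa [e4] at this
      · intro p hp
        have := in21.dE (-(n : ℤ)) (by omega) p hp
        rwa [hn] at this

/-- **the exact central values of all the twists** -/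
theorem vl_allX_of {m : ℤ} (hs : Squarefree m) (h1 : m ≠ 1) : CX (EE m) (Sg21 m) := by
  by_cases hw : w21 m = 1
  · rcases lt_trichotomy m 0 with h0 | h0 | h0
    · rcases cls_n hs h0 hw with ⟨h2, h3⟩ | ⟨h2, h3⟩
      · refine CX.congr (neg_valX hN hs h0 (Q := CM (-7) 3 (Kd m)) (fun h4 => ?_)
          (fun h4 => ?_)) (in21.cM m hs h0 h2).symm
        · rw [h3]
          refine relX_Kn lvs h2 fun u => ?_
          rcases fn_of hs h0 with ⟨h5, h6, -⟩ | ⟨-, h5⟩
          · exact (chM_odd (by omega) h5 u).symm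
          · exact absurd h4 h5
        · rw [h3]
          refine relX_Kn lvs h2 fun u => ?_
          rcases fn_of hs h0 with ⟨-, -, h5⟩ | ⟨h5, -⟩
          · exact absurd h5 h4
          · refine (chM_even ?_ u).symm
            obtain ⟨k, hk, -⟩ := h5
            exact ⟨2 * k, by rw [hk]; ring⟩
      · rcases h2 with ⟨h4, h2⟩ | ⟨h4, h2⟩
        · have e : Kd m = m.natAbs := if_pos h4
          have em : m = -((Kd m : ℕ) : ℤ) := by rw [e]; omega
          have hc : Sg21 m ↔ Qc (Kd m) := by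
            rw [← fin2_EE hs h1, show EE m = WN m from if_pos h4]
            conv_lhs => rw [em]
            exact Pool.Agent.N637.P21.crit_ao_N h2
          refine CX.congr (neg_valX hN hs h0 (fun _ => ?_) fun h => absurd h4 h) hc.symm
          exact (relX_odd h2).congr (by rw [h3]) Iff.rfl
        · have e : Kd m = 4 * m.natAbs := if_neg h4
          have em : m = -((Kd m / 4 : ℕ) : ℤ) := by rw [e]; omega
          have hc : Sg21 m ↔ Qe (Kd m) := by
            rw [← fin2_EE hs h1, show EE m = Em m from if_neg h4]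
            conv_lhs => rw [em]
            exact crit_ae h2
          refine CX.congr (neg_valX hN hs h0 (fun h => absurd h h4) fun _ => ?_) hc.symm
          exact (relX_even h2).congr (by rw [h3]) Iff.rfl
    · exact absurd h0 hs.ne_zero
    · rcases cls_p hs h0 h1 hw with ⟨h2, h3⟩ | ⟨h2, h3⟩ | ⟨h2, h3⟩ | ⟨h2, h3⟩
      · refine CX.congr (pos_valX hk hs h0 h1 ?_) (in21.cY m hs h0 h1 (Or.inl h2)).symm
        rw [h3]
        exact relP_Ai lvs h2
      · refine CX.congr (pos_valX hk hs h0 h1 ?_) (in21.cY m hs h0 h1 (Or.inr h2)).symm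
        rw [h3]
        exact relP_A0 lvs h2
      · refine CX.congr (pos_valX hk hs h0 h1 ?_) (in21.c21 m hs h0 h1 (Or.inl h2)).symm
        rw [h3]
        exact relP_As lvs h2
      · refine CX.congr (pos_valX hk hs h0 h1 ?_) (in21.c21 m hs h0 h1 (Or.inr h2)).symm
        rw [h3]
        exact relP_R21r lvs h2
  · obtain ⟨hΩ, f, hf, hf1⟩ := in21.van m hs h1 hw
    refine ⟨hΩ, f, 0, hf, ?_, ?_⟩
    · constructor
      · intro h; exact absurd h (by decide)
      · intro h; exact absurd (Pool.Agent.N809.PQ.sg21_parity hs h1 h) hw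
    · rw [hf1]
      push_cast
      ring

end

end Pool.Agent.N973.P21G
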