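import Pool.Agent.N971.P21G.Hky
import Pool.Agent.N973.P21G.Vx
import Pool.Agent.N973.P21G.Ox

/-!
# The exact central values of all the twists of `X_0(21)`
-/

set_option autoImplicit false

namespace Pool.Agent.N973.P21G

open Pool.Agent.N809.PQ (Sg21)
open Pool.Agent.N218.T21 (EE)
open Pool.Agent.Y700 (IsL tamProd Omega)

/-- **Exact central values, level 21, every squarefree `m ≠ 1`.** -/
theorem vl_allX {m : ℤ} (hs : Squarefree m) (h1 : m ≠ 1) : CX (EE m) (Sg21 m) :=
  vl_allX_of Pool.Agent.N971.KY.hky hN0 hs h1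

/-- **The exact central value of `X_0(21)`.** -/
theorem one_valX : 0 < Omega (EE 1) ∧ ∃ f : ℂ → ℂ, IsL (EE 1) f ∧
    f 1 = ((Omega (EE 1) * tamProd (EE 1) / 64 : ℝ) : ℂ) := one_val Pool.Agent.N971.KY.hky

end Pool.Agent.N973.P21G
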