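import Pool.Agent.N973.P21G.Td

/-!
# The torsion of the twists of `X_0(21)` by the squarefree integers: the minimal equations

The torsion subgroup of `E_m(ℚ)` has order four for all squarefree `m ≠ 1` and order eight for `m = 1`.
-/

set_option autoImplicit false

namespace Pool.Agent.N973.P21G

open Pool.Agent.N218.T21 (EE)
open Pool.Agent.N637.P21 (WN Em vr WN_Δ_ne)
open Pool.Agent.N875.X15 (tors_congr)

/-- **The order of the torsion subgroup is four for every squarefree `m ≠ 1`.** -/
theorem tor_four : ∀ m : ℤ, Squarefree m → m ≠ 1 →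
    Nat.card (AddCommGroup.torsion ((EE m).map (Int.castRingHom ℚ)).toAffine.Point) = 4 := by
  intro m hs h1
  by_cases h4 : m % 4 = 1
  · have e : EE m = WN m := if_pos h4
    rw [e]
    exact (tors_congr ((vr h4 ℚ).equiv (WN_Δ_ne h4 ℚ))).trans (Td.tors_four hs h1)
  · have e : EE m = Em m := if_neg h4
    rw [e]
    exact Td.tors_four hs h1

/-- **The order of the torsion subgroup of `X_0(21)` is eight.** -/
theorem tor_eight :
    Nat.card (AddCommGroup.torsion ((EE 1).map (Int.castRingHom ℚ)).toAffine.Point) = 8 := by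
  have h4 : (1 : ℤ) % 4 = 1 := by norm_num
  have e : EE 1 = WN 1 := if_pos h4
  rw [e]
  exact (tors_congr ((vr h4 ℚ).equiv (WN_Δ_ne h4 ℚ))).trans Td.tors_eight

end Pool.Agent.N973.P21G
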