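import Pool.Agent.N877.S21.Pos

/-!
# Level 21: the exact form of the central value
-/

set_option autoImplicit false

namespace Pool.Agent.N973.P21G

open Pool.Agent.Y700 (IsL tamProd Omega)

/-- **the exact conclusion**: the central value is `y² Ω ∏ c_p / 16`, `y` an integer which is odd
exactly when `Q` holds -/
def CX (W : WeierstrassCurve ℤ) (Q : Prop) : Prop := 0 < Omega W ∧
    ∃ (f : ℂ → ℂ) (y : ℤ), IsL W f ∧ (Odd y ↔ Q) ∧
      f 1 = (((y : ℝ) ^ 2 * (Omega W * tamProd W / 16) : ℝ) : ℂ)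

theorem CX.congr {W : WeierstrassCurve ℤ} {P Q : Prop} (h : CX W P) (e : P ↔ Q) : CX W Q := by
  obtain ⟨h1, f, y, h2, h3, h4⟩ := h
  exact ⟨h1, f, y, h2, h3.trans e, h4⟩

end Pool.Agent.N973.P21G
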