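import Pool.Agent.N637.P21.AsmB
import Pool.Agent.N975.S21.Cmp
import Pool.Agent.N971.EX.Scale

/-!
# The exact scale of the odd symbol of level `21`

The value at `1 / 3` of the odd symbol (in units of half the imaginary period) is `1` or `-1`.
-/

set_option autoImplicit false
set_option linter.unusedSectionVars false

open UpperHalfPlane MatrixGroups CongruenceSubgroup Filter Topology MeasureTheory Set

namespace Pool.Agent.N973.P21G

open Pool.Agent.N402.MF21 (f21 Xw eigen21 param21 tends0 tends3 tends7 hW21 hW3)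
open Pool.Agent.N974.Gen
open Pool.Agent.N975.S21 (cls0 lam_eq)
open Pool.Agent.N877.P21 (Fp)
open Pool.Agent.N637.P21 (sy_of)
open Pool.Agent.N971.EX (scale_im)
open Pool.Agent.W97.MT (ap)

theorem sq21' : Squarefree 21 := by
  rw [show (21 : ℕ) = 3 * 7 by norm_num, Nat.squarefree_mul (by norm_num)]
  exact ⟨Nat.prime_three.squarefree, (by norm_num : Nat.Prime 7).squarefree⟩

/-- the cusps which are not equivalent to infinity have no value in the lattice -/
theorem cusp_not {L : PeriodPair} (g2 : L.g₂ = 193 / 12) (g3 : L.g₃ = 575 / 216) (r : ℚ)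
    (hr : ¬ ((21 : ℕ) : ℤ) ∣ r.den) : II f21 r ∉ L.lattice := by
  have hp := param21 L g2 g3
  have hd : (3 : ℤ) ∣ r.den → (7 : ℤ) ∣ r.den → False := by
    intro h3 h7
    apply hr
    push_cast
    omega
  by_cases h3 : (3 : ℤ) ∣ r.den
  · have h7 : ¬ (7 : ℤ) ∣ r.den := fun h => hd h3 h
    have hg : Nat.gcd (1 / 3 : ℚ).den 21 = Nat.gcd r.den 21 :=
      gcd21 _ _ (by norm_num [h3]) (by norm_num [h7])
    exact (value_class hp sq21' tends3 hg).1
  · by_cases h7 : (7 : ℤ) ∣ r.den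
    · have hg : Nat.gcd (1 / 7 : ℚ).den 21 = Nat.gcd r.den 21 :=
        gcd21 _ _ (by norm_num [h3]) (by norm_num [h7])
      exact (value_class hp sq21' tends7 hg).1
    · have hg : Nat.gcd (0 : ℚ).den 21 = Nat.gcd r.den 21 := gcd21 _ _ (by simp [h3]) (by simp [h7])
      exact (value_class hp sq21' tends0 hg).1

/-- the imaginary parts of the periods -/
theorem im_period {Om : ℝ} {s : ℚ → ℤ} {t : ℕ → ℤ} (hs : ∀ r : ℚ, (II f21 r).im = Om / 2 * s r)
    (g : Symb21 s t) {a b c d : ℤ} (hdet : a * d - b * ((21 : ℤ) * c) = 1) {p : ℂ}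
    (hp : ∀ z : ℂ, 0 < z.im → F f21 ((a * z + b) / (((21 : ℕ) : ℂ) * c * z + d)) = F f21 z + p) :
    ∃ m : ℤ, p.im = m * (s (1 / 3) * Om) := by
  have hd : d ≠ 0 := by
    rintro rfl
    have : (21 : ℤ) * (b * c) = -1 := by linarith
    omega
  have h0 := II_zero_im f21 eigen21.real
  have h1 := II_gamma f21 (N := 21) (by exact_mod_cast hdet) hp 0 (by
    rw [mul_zero, zero_add]
    exact_mod_cast hd)
  have h2 : (II f21 ((b : ℚ) / d)).im = p.im := by
    have h3 := congrArg Complex.im h1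
    rw [Complex.add_im, h0, zero_add] at h3
    rw [← h3]
    congr 2
    push_cast
    ring
  have hS := sy_of g
  have hcop : IsCoprime (21 * b) d := ⟨-c, a, by linear_combination hdet⟩
  have h3 := cls0 (R := ℤ) hS hcop
  rw [lam_eq (R := ℤ) hS] at h3
  simp only [Int.cast_id] at h3
  refine ⟨Fp b d, ?_⟩
  rw [← h2, hs, h3]
  push_cast
  ring

/-- **The scale of the odd symbol.** -/
theorem s13_unit {L : PeriodPair} {Op Om : ℝ} (hOp : 0 < Op) (hOm : 0 < Om)
    (g2 : L.g₂ = 193 / 12) (g3 : L.g₃ = 575 / 216)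
    (hL : ∀ w : ℂ, w ∈ L.lattice ↔ ∃ a b : ℤ, w = a * Op + b * Om * Complex.I)
    {s : ℚ → ℤ} {t : ℕ → ℤ} (hs : ∀ r : ℚ, (II f21 r).im = Om / 2 * s r)
    (g : Symb21 s t) : s (1 / 3) = 1 ∨ s (1 / 3) = -1 := by
  have hv : ((Om : ℂ) * Complex.I).im = Om := by simp
  refine scale_im (param21 L g2 g3) (cusp_not g2 g3) (Op := Op) (v := (Om : ℂ) * Complex.I)
    hOp.ne' (by rw [hv]; exact hOm.ne') (fun w => ?_) (s (1 / 3)) (fun a b c d hdet p hp => ?_)
  · rw [hL]
    constructor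
    · rintro ⟨a, b, rfl⟩
      exact ⟨a, b, by ring⟩
    · rintro ⟨a, b, rfl⟩
      exact ⟨a, b, by ring⟩
  · obtain ⟨m, hm⟩ := im_period hs g (by exact_mod_cast hdet) hp
    exact ⟨m, by rw [hm, hv]⟩

end Pool.Agent.N973.P21G
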