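import Pool.Agent.N877.P21G.Lv
import Pool.Agent.N970.P21G.Ort
import Pool.Agent.N871.P21G.Van2
import Pool.Agent.N972.GC.Id21
import Pool.Agent.N218.P15G.Lneg

/-!
# Level `21`: all classes, unconditional
-/

set_option autoImplicit false

open Finset

namespace Pool.Agent.N973.P21G

open Pool.Agent.N877.P21G
open Pool.Agent.N972.GC (CY CM C21)
open Pool.Agent.N974.RQ (mA)
open Pool.Agent.N969.RQ (R21 R21r)
open Pool.Agent.Y687 (RankBSD)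
open Pool.Agent.N218.P15G.Lneg (mN)
open Pool.Agent.N975.S21 (FinPts)

/-- all leaves -/
theorem lvs : Lvs := lvs_of Pool.Agent.N970.P21G.t_ORT3 Pool.Agent.N970.P21G.t_ORT21
  Pool.Agent.N970.P21G.t_ORTN Pool.Agent.N871.P21G.t_VAN3 Pool.Agent.N871.P21G.t_VAN21
  Pool.Agent.N871.P21G.t_VANN'

/-- **the classes `(+;-1,-1)`, `(+;0,-1)`** -/
theorem rank_Ai {A : ℕ} (hA : Ai A ∨ A0 A) (hC : CY (-7) A) (hfin : FinPts (mA A : ℤ)) :
    RankBSD (-5211 * (mA A : ℤ) ^ 2) (-31050 * (mA A : ℤ) ^ 3) := by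
  rcases hA with h | h
  · exact lvs.rank_Ai h hC hfin
  · exact lvs.rank_A0 h hC hfin

/-- **the classes `(+;1,1)`, `(+;1,0)`** -/
theorem rank_R21 {A : ℕ} (hA : R21 A ∨ R21r A) (hC : C21 A) (hfin : FinPts (mA A : ℤ)) :
    RankBSD (-5211 * (mA A : ℤ) ^ 2) (-31050 * (mA A : ℤ) ^ 3) := by
  rcases hA with h | h
  · exact Pool.Agent.N855.RQp.rank_R21 Pool.Agent.N970.RQ3.t_BILJ21 Pool.Agent.N970.RQ.t_BILJ21n
      R7.t_R7 lvs.kyi Pool.Agent.N972.GC.t_ID21 h hC hfin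
  · exact Pool.Agent.N855.RQp.rank_R21r Pool.Agent.N970.RQ3.t_BILJ21 Pool.Agent.N970.RQ.t_BILJ21n
      R7.t_R7 R7.t_R7r lvs.kyi Pool.Agent.N972.GC.t_ID21r h hC hfin

/-- **the class `(-;1,-1)`** -/
theorem rank_Kn {n : ℕ} (hn : Kn n) (hC : CM (-7) 3 n) (hfin : FinPts (-(mN n : ℤ))) :
    RankBSD (-5211 * (-(mN n : ℤ)) ^ 2) (-31050 * (-(mN n : ℤ)) ^ 3) := by
  rcases id hn.1 with ⟨hs, h4⟩ | hE
  · have e : mN n = n := Pool.Agent.N218.P15G.Lneg.mN_odd (by omega)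
    rw [e] at hfin ⊢
    exact rank_KnO lvs hn h4 hs hC hfin
  · have e : mN n = n / 4 := Pool.Agent.N218.P15G.Lneg.mN_even (Pool.Agent.N218.P15G.Lneg.ev2 hE)
    rw [e] at hfin ⊢
    exact rank_KnE lvs hn hE hC hfin

end Pool.Agent.N973.P21G
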