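import Pool.Agent.N973.P21G.Cx

/-!
# Level 21: the exact central values for positive discriminants
-/

set_option autoImplicit false
set_option linter.style.haveILetI false

open Complex Filter Topology Set UpperHalfPlane MatrixGroups CongruenceSubgroup ZMod

namespace Pool.Agent.N973.P21G

open Pool.Agent.N974.Gen
open Pool.Agent.N402.MF21 (f21 eigen21)
open Pool.Agent.N969.P15 (un)
open Pool.Agent.N969.P17G (chP)
open Pool.Agent.N969.RQ (Fd)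
open Pool.Agent.W97.MT (ap)
open Pool.Agent.Y700 (IsL tamProd Omega)
open Pool.Agent.N974.P21G (sig ky sig_mul)
open Pool.Agent.N974.RQ (chP_odd ev_of odd_of)
open Pool.Agent.N877.S21 (RelP)

/-- the exact scale of the even symbol -/
def Hky : Prop := ∀ (L : PeriodPair) (Op Om : ℝ), 0 < Op → 0 < Om → L.g₂ = 193 / 12 →
  L.g₃ = 575 / 216 → (∀ w : ℂ, w ∈ L.lattice ↔ ∃ a b : ℤ, w = a * Op + b * Om * Complex.I) →
  ky = -Op

/-- **positive discriminants** -/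
theorem corePX (hk : Hky) {n : ℕ} [NeZero n] (hn1 : 1 < n) (W : WeierstrassCurve ℤ)
    (h4 : W.c₄ = 193 * (n : ℤ) ^ 2) (h6 : W.c₆ = 575 * (n : ℤ) ^ 3)
    (χ : DirichletCharacter ℂ n) (hχ : χ.IsPrimitive) (hinv : χ⁻¹ = χ) (heven : χ (-1) = 1)
    (hG : gaussSum χ (stdAddChar (N := n)) = ((Real.sqrt n : ℝ) : ℂ))
    (w : ℕ → ℤ) (hw : ∀ u : ℕ, χ (u : ZMod n) = (w u : ℂ))
    (hv : ∀ p : ℕ, p.Prime → w p = 0 ∨ w p = 1 ∨ w p = -1)
    (ha : ∀ p : ℕ, p.Prime → ap W p = ap E21 p * w p)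
    (hΔ : ∀ p : ℕ, p.Prime → ((p : ℤ) ∣ W.Δ ↔ p ∣ 21 ∨ w p = 0)) {T : ℕ} (hT : tamProd W = T)
    {Q : Prop} (hs : ∑ u ∈ un n, (w u : ℝ) * (II f21 ((u : ℚ) / n)).re = ky * sig n)
    (hR : RelP n T Q) : CX W Q := by
  have hn0 : (0 : ℝ) < n := by exact_mod_cast (by omega : 0 < n)
  have hsn : (0 : ℝ) < √(n : ℝ) := Real.sqrt_pos.2 hn0
  obtain ⟨L, Op, Om, hOp, hOm, g2, g3, hL⟩ := Pool.Agent.N975.LatGen.lat21
  have hky := hk L Op Om hOp hOm g2 g3 hL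
  have hΩ : Omega W = 2 * Op / √n := Pool.Agent.N971.EX.omega_pos L Op Om hOp hOm
    (c4 := 193) (c6 := 575) (by rw [g2]; push_cast; rfl) (by rw [g3]; push_cast; rfl) hL n
    (by omega) W h4 h6
  obtain ⟨f, hf, hf1⟩ := Pool.Agent.N971.EX.value_even eigen21 W hn1 χ hχ hinv heven hG w hw hv
    ha hΔ
  refine ⟨by rw [hΩ]; positivity, ?_⟩
  obtain ⟨y, hyQ, hy⟩ := hR
  refine ⟨f, y, hf, hyQ, ?_⟩
  rw [hf1, hs, hky, hΩ, hT]
  congr 1
  have hs' : sig n = -(T * (y : ℝ) ^ 2) / 8 := by linarith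
  rw [hs']
  field_simp
  ring

/-- **odd positive discriminants** -/
theorem posOX (hk : Hky) {n : ℕ} (hs : Squarefree n) (h4 : n % 4 = 1) (h1 : 1 < n)
    (W : WeierstrassCurve ℤ)
    (hc4 : W.c₄ = 193 * (n : ℤ) ^ 2) (hc6 : W.c₆ = 575 * (n : ℤ) ^ 3)
    (ha : ∀ p : ℕ, p.Prime → ap W p = ap E21 p * jacobiSym p n)
    (hΔ : ∀ p : ℕ, p.Prime → ((p : ℤ) ∣ W.Δ ↔ p ∣ 21 ∨ p ∣ n)) {T : ℕ} (hT : tamProd W = T)
    {Q : Prop} (hR : RelP n T Q) : CX W Q := by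
  have hodd : Odd n := Nat.odd_iff.2 (by omega)
  haveI : NeZero n := ⟨by omega⟩
  set d : Pool.Agent.H491R3.J.OS := ⟨n, hodd, hs, by omega⟩ with hd
  have hchi : ∀ m : ℕ, H491R3.J.chi d (m : ZMod n) = ((jacobiSym (m : ℤ) n : ℤ) : ℂ) :=
    H491R3.J.chi_natCast d
  have jz : ∀ p : ℕ, p.Prime → (jacobiSym (p : ℤ) n = 0 ↔ p ∣ n) := by
    intro p hp
    rw [jacobiSym.eq_zero_iff_not_coprime, Int.gcd_natCast_natCast]
    have h9 : Nat.gcd p n = 1 ↔ ¬ p ∣ n := Nat.Prime.coprime_iff_not_dvd hp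
    rw [ne_eq, h9, not_not]
  refine corePX hk h1 W hc4 hc6 (H491R3.J.chi d) (H491R3.J.chi_primitive d)
    (H491R3.J.chi_inv d) ?_ ?_ (fun u => jacobiSym u n) hchi ?_ ha ?_ hT ?_ hR
  · have h9 := H491R3.J.chi_neg_one d
    have h10 : d.1 % 4 = 1 := h4
    rw [h9, if_pos h10]
  · rw [Pool.Agent.N971.EX.gauss_odd (H491R3.J.chi d) hchi, Pool.Agent.N971.EX.gJ_one hs h4]
  · intro p hp
    by_cases hpn : p ∣ n
    · exact Or.inl ((jz p hp).2 hpn)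
    · right
      refine jacobiSym.eq_one_or_neg_one ?_
      rw [Int.gcd_natCast_natCast]
      exact (Nat.Prime.coprime_iff_not_dvd hp).2 hpn
  · intro p hp
    rw [hΔ p hp, jz p hp]
  · rw [sig_mul]
    refine Finset.sum_congr rfl fun u _ => ?_
    rw [chP_odd hs (by omega)]
    rfl

open Pool.Agent.N974.Gen.ChP in
/-- **even positive discriminants** -/
theorem posEX (hk : Hky) {n : ℕ} (hn : Fd n) (h2 : 2 ∣ n) (W : WeierstrassCurve ℤ)
    (hc4 : W.c₄ = 193 * (n : ℤ) ^ 2) (hc6 : W.c₆ = 575 * (n : ℤ) ^ 3)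
    (ha : ∀ p : ℕ, p.Prime → ap W p = ap E21 p * chP n p)
    (hΔ : ∀ p : ℕ, p.Prime → ((p : ℤ) ∣ W.Δ ↔ p ∣ 21 ∨ p ∣ n)) {T : ℕ} (hT : tamProd W = T)
    {Q : Prop} (hR : RelP n T Q) : CX W Q := by
  have hE := ev_of hn h2
  have hm := ev_mod hE
  have hn0 : 0 < n := by omega
  haveI : NeZero n := ⟨by omega⟩
  have hP : ∀ u : ℤ, chP n u = Pool.Agent.N974.Gen.ChP.chE n u :=
    fun u => Pool.Agent.N974.PG.chP_eq hE u
  have hchi : ∀ m : ℕ, chi n hm (m : ZMod n) = ((chP n (m : ℤ) : ℤ) : ℂ) := by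
    intro m
    rw [chi_nat, hP]
  have jz : ∀ p : ℕ, p.Prime → (chP n p = 0 ↔ p ∣ n) := by
    intro p hp
    rw [hP]
    constructor
    · intro h0
      by_contra hcon
      rcases chE_pm hm ((Nat.Prime.coprime_iff_not_dvd hp).2 hcon) with h | h <;>
        rw [h] at h0 <;> norm_num at h0
    · intro h0
      exact chE_zero hm fun h => hp.one_lt.ne' (Nat.eq_one_of_dvd_coprimes h dvd_rfl h0)
  refine corePX hk (by omega) W hc4 hc6 (chi n hm) (chi_primitive hE)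
    (chi_inv n hm) ?_ ?_ (fun u => chP n u) hchi ?_ ha ?_ hT ?_ hR
  · have h1 : ((n - 1 : ℕ) : ZMod n) = -1 := by
      rw [Nat.cast_sub (by omega), ZMod.natCast_self, Nat.cast_one, zero_sub]
    have h2 : chP n ((n - 1 : ℕ) : ℤ) = 1 := by
      rw [hP, chE_mod hm (u := ((n - 1 : ℕ) : ℤ)) (v := -1) ⟨1, by omega⟩]
      exact Pool.Agent.N974.PG.chE_neg_one hE
    rw [← h1, hchi, h2]
    norm_num
  · obtain ⟨m, rfl, hs, h5⟩ := hE
    exact Pool.Agent.N971.EX.gauss_chP hs h5.symm (chi (4 * m) hm) hchi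
  · intro p hp
    by_cases hpn : p ∣ n
    · exact Or.inl ((jz p hp).2 hpn)
    · right
      show chP n p = 1 ∨ chP n p = -1
      rw [hP]
      exact chE_pm hm ((Nat.Prime.coprime_iff_not_dvd hp).2 hpn)
  · intro p hp
    rw [hΔ p hp]
    show _ ↔ _ ∨ chP n p = 0
    rw [jz p hp]
  · rw [sig_mul]
    rfl

end Pool.Agent.N973.P21G
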