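import Pool.Agent.N973.P21G.Ex
import Pool.Agent.N971.EX.Sgn

/-!
# The sign of the odd symbol of level `21`
-/

set_option autoImplicit false
set_option linter.unusedSectionVars false

open UpperHalfPlane MatrixGroups CongruenceSubgroup Filter Topology MeasureTheory Set

namespace Pool.Agent.N973.P21G

open Pool.Agent.N402.MF21 (f21 Xw eigen21 param21 tends0 tends3 tends7 hW21 hW3 ff_m7 m7 j7 map7 gff)
open Pool.Agent.N974.Gen
open Pool.Agent.N971.EX (prim_eq cf_le)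
open Pool.Agent.W97.MT (ap)

/-- the involution at `7` -/
theorem hW7 : ∃ p, ∀ z : ℂ, 0 < z.im →
    F f21 (((7 : ℝ) * z + (2 : ℝ)) / ((21 : ℝ) * z + (7 : ℝ))) = 1 * F f21 z + p := by
  obtain ⟨p, hp⟩ := F_mob (f := f21) (A := 7) (B := 2) (C := 21) (D := 7) (by norm_num)
    (ε := 1) (fun z hz => by
      have h1 := ff_m7 z hz
      have h2 := map7.pos z hz
      have h0 : (3 * z + 1 : ℂ) ≠ 0 := by
        intro h
        have := congrArg Complex.im h
        simp at this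
        exact hz.ne' this
      have e : (((7 : ℝ) : ℂ) * z + ((2 : ℝ) : ℂ)) / (((21 : ℝ) : ℂ) * z + ((7 : ℝ) : ℂ)) =
          m7 z := by unfold m7; push_cast; rfl
      rw [e, gff h2, gff hz, ← h1]
      unfold j7
      push_cast
      have e7 : (21 * z + 7 : ℂ) = 7 * (3 * z + 1) := by ring
      rw [e7]
      field_simp
      ring)
  exact ⟨p, hp⟩

/-- `exp (- 2 π √7 / 21)` -/
noncomputable def rr : ℝ := Real.exp (-(2 * Real.pi * √7 / 21))

theorem rr_pos : 0 < rr := Real.exp_pos _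

theorem rr_le : rr ≤ 0.48 := by
  have h1 : (2.1 : ℝ) ≤ Real.exp (2 * Real.pi * √7 / 21) := by
    have hpi := Real.pi_gt_d4
    have h7 : (2.6457 : ℝ) ≤ √7 := Real.le_sqrt_of_sq_le (by norm_num)
    have hx : (0.79 : ℝ) ≤ 2 * Real.pi * √7 / 21 := by
      have : (3.1415 : ℝ) * 2.6457 ≤ Real.pi * √7 := by gcongr
      norm_num at this
      linarith
    have h4 := Real.quadratic_le_exp_of_nonneg (x := 2 * Real.pi * √7 / 21) (by positivity)
    have h5 : (0.79 : ℝ) ^ 2 ≤ (2 * Real.pi * √7 / 21) ^ 2 := pow_le_pow_left₀ (by norm_num) hx 2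
    norm_num at h5 ⊢
    linarith
  unfold rr
  rw [Real.exp_neg]
  rw [inv_le_comm₀ (Real.exp_pos _) (by norm_num)]
  refine le_trans ?_ h1
  norm_num

theorem exp_e (n : ℕ) (x : ℝ) : (2 * Real.pi * Complex.I * n *
    (((x : ℂ) + (√7 : ℝ) * Complex.I) / 21) : ℂ) =
      ((n * (-(2 * Real.pi * √7 / 21)) : ℝ) : ℂ) + ((2 * Real.pi * n * x / 21 : ℝ) : ℂ) *
        Complex.I := by
  push_cast
  linear_combination (2 * Real.pi * n * (√7 : ℝ) / 21 : ℂ) * Complex.I_sq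

theorem exp_im (n : ℕ) (x : ℝ) : (Complex.exp (2 * Real.pi * Complex.I * n *
    (((x : ℂ) + (√7 : ℝ) * Complex.I) / 21))).im = rr ^ n * Real.sin (2 * Real.pi * n * x / 21) := by
  rw [exp_e, Complex.exp_add, ← Complex.ofReal_exp, Complex.im_ofReal_mul,
    Complex.exp_ofReal_mul_I_im]
  congr 1
  unfold rr
  rw [← Real.exp_nat_mul]

theorem exp_norm (n : ℕ) (x : ℝ) : ‖Complex.exp (2 * Real.pi * Complex.I * n *
    (((x : ℂ) + (√7 : ℝ) * Complex.I) / 21))‖ = rr ^ n := by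
  rw [exp_e, Complex.exp_add, ← Complex.ofReal_exp, norm_mul, Complex.norm_exp_ofReal_mul_I,
    mul_one, Complex.norm_real, Real.norm_eq_abs, abs_of_pos (Real.exp_pos _)]
  unfold rr
  rw [← Real.exp_nat_mul]

theorem z_pos (x : ℝ) : 0 < (((x : ℂ) + (√7 : ℝ) * Complex.I) / 21).im := by
  have h7 : (0 : ℝ) < √7 := Real.sqrt_pos.2 (by norm_num)
  have : (((x : ℂ) + (√7 : ℝ) * Complex.I) / 21).im = √7 / 21 := by
    rw [show (21 : ℂ) = ((21 : ℝ) : ℂ) by push_cast; rfl, Complex.div_ofReal_im]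
    simp
  rw [this]
  positivity

/-- the imaginary part of the primitive -/
theorem F_im (x : ℝ) : HasSum (fun n : ℕ => (cf f21 n).re / n *
    (rr ^ n * Real.sin (2 * Real.pi * n * x / 21)))
    (F f21 (((x : ℂ) + (√7 : ℝ) * Complex.I) / 21)).im := by
  have hz := z_pos x
  have hr0 := rr_pos
  have hr1 : rr < 1 := lt_of_le_of_lt rr_le (by norm_num)
  rw [← prim_eq f21 hz]
  have hs : Summable (fun n : ℕ => (qExpansion 1 f21).coeff n / n *
      Complex.exp (2 * Real.pi * Complex.I * n * (((x : ℂ) + (√7 : ℝ) * Complex.I) / 21))) := by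
    refine Summable.of_norm_bounded (g := fun n : ℕ => 2 * rr ^ n)
      ((summable_geometric_of_lt_one hr0.le hr1).mul_left 2) fun n => ?_
    rcases Nat.eq_zero_or_pos n with rfl | hn
    · simp
    · rw [norm_mul, exp_norm, norm_div, Complex.norm_natCast]
      have h1 : ‖(qExpansion 1 f21).coeff n‖ = |(cf f21 n).re| := by
        have h2 := cf_re eigen21 n
        conv_lhs => rw [show (qExpansion 1 f21).coeff n = cf f21 n from rfl, h2, Complex.norm_real,
          Real.norm_eq_abs]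
      have h2 := cf_le eigen21 n hn
      have hn0 : (0 : ℝ) < n := by exact_mod_cast hn
      rw [h1]
      have h3 : |(cf f21 n).re| / n ≤ 2 := by
        rw [div_le_iff₀ hn0]
        exact h2
      have h4 : (0 : ℝ) ≤ rr ^ n := pow_nonneg hr0.le n
      nlinarith
  have h1 := ((Complex.hasSum_iff _ _).1 hs.hasSum).2
  unfold TH940.prim
  refine h1.congr_fun ?_ |> fun h => h
  intro n
  have h2 := cf_re eigen21 n
  rw [show (qExpansion 1 f21).coeff n = cf f21 n from rfl, h2]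
  have e : (((cf f21 n).re : ℂ) / n : ℂ) = (((cf f21 n).re / n : ℝ) : ℂ) := by push_cast; rfl
  rw [e, Complex.im_ofReal_mul, exp_im]
  simp

theorem coefs : (cf f21 1).re = 1 ∧ (cf f21 2).re = -1 ∧ (cf f21 3).re = 1 ∧
    (cf f21 4).re = -1 := by
  have h1 := cf_one eigen21
  have h2 := cf_prime eigen21 2 Nat.prime_two
  have h3 := cf_prime eigen21 3 Nat.prime_three
  have h4 := cf_pow eigen21 2 0 Nat.prime_two
  simp only [ap21_2, ap21_3] at h2 h3
  have h21 : ¬ (2 ∣ 21) := by norm_num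
  rw [if_neg h21, pow_zero, zero_add, pow_one, h2, h1] at h4
  norm_num at h4
  refine ⟨?_, ?_, ?_, ?_⟩
  · rw [h1]; simp
  · rw [h2]; simp
  · rw [h3]; simp
  · rw [h4]; norm_num

/-- the sum of the sines -/
noncomputable def us (n : ℕ) : ℝ :=
  Real.sin (2 * Real.pi * n * 7 / 21) - Real.sin (2 * Real.pi * n * (-7) / 21)

theorem us_le (n : ℕ) : |us n| ≤ 2 := by
  unfold us
  have h1 := Real.abs_sin_le_one (2 * Real.pi * n * 7 / 21)
  have h2 := Real.abs_sin_le_one (2 * Real.pi * n * (-7) / 21)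
  rw [abs_le] at *
  constructor <;> linarith [h1.1, h1.2, h2.1, h2.2]

theorem us_eq (n : ℕ) : us n = 2 * Real.sin (2 * n * (Real.pi / 3)) := by
  unfold us
  have e1 : 2 * Real.pi * (n : ℝ) * 7 / 21 = 2 * n * (Real.pi / 3) := by ring
  have e2 : 2 * Real.pi * (n : ℝ) * (-7) / 21 = -(2 * n * (Real.pi / 3)) := by ring
  rw [e1, e2, Real.sin_neg]
  ring

theorem us1 : us 1 = √3 := by
  rw [us_eq]
  have e : 2 * ((1 : ℕ) : ℝ) * (Real.pi / 3) = Real.pi - Real.pi / 3 := by push_cast; ring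
  rw [e, Real.sin_pi_sub, Real.sin_pi_div_three]
  ring

theorem us2 : us 2 = -√3 := by
  rw [us_eq]
  have e : 2 * ((2 : ℕ) : ℝ) * (Real.pi / 3) = Real.pi / 3 + Real.pi := by push_cast; ring
  rw [e, Real.sin_add_pi, Real.sin_pi_div_three]
  ring

theorem us3 : us 3 = 0 := by
  rw [us_eq]
  have e : 2 * ((3 : ℕ) : ℝ) * (Real.pi / 3) = 2 * Real.pi := by push_cast; ring
  rw [e, Real.sin_two_pi, mul_zero]

theorem us4 : us 4 = √3 := by
  rw [us_eq]
  have e : 2 * ((4 : ℕ) : ℝ) * (Real.pi / 3) = (Real.pi - Real.pi / 3) + 2 * Real.pi := by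
    push_cast; ring
  rw [e, Real.sin_add_two_pi, Real.sin_pi_sub, Real.sin_pi_div_three]
  ring

/-- the imaginary part of the integral to `1 / 3` -/
theorem im_pos_aux : 0 < (F f21 ((((7 : ℝ) : ℂ) + (√7 : ℝ) * Complex.I) / 21)).im -
    (F f21 ((((-7 : ℝ) : ℂ) + (√7 : ℝ) * Complex.I) / 21)).im := by
  have hr0 := rr_pos
  have hrl := rr_le
  have hr1 : rr < 1 := lt_of_le_of_lt rr_le (by norm_num)
  have h1 := (F_im 7).sub (F_im (-7))
  set S := (F f21 ((((7 : ℝ) : ℂ) + (√7 : ℝ) * Complex.I) / 21)).im -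
    (F f21 ((((-7 : ℝ) : ℂ) + (√7 : ℝ) * Complex.I) / 21)).im with hS
  have h2 : HasSum (fun n : ℕ => (cf f21 n).re / n * (rr ^ n * us n)) S := by
    refine h1.congr_fun ?_ |> fun h => h
    intro n
    unfold us
    ring
  set T : ℕ → ℝ := fun n => (cf f21 n).re / n * (rr ^ n * us n) with hT
  have h3 := h2.summable.sum_add_tsum_nat_add 5
  rw [h2.tsum_eq] at h3
  obtain ⟨c1, c2, c3, c4⟩ := coefs
  have hs3 : (1.732 : ℝ) ≤ √3 := Real.le_sqrt_of_sq_le (by norm_num)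
  have hfin : rr * 1.732 ≤ ∑ i ∈ Finset.range 5, T i := by
    simp only [Finset.sum_range_succ, Finset.sum_range_zero, hT, c1, c2, c3, c4, us1, us2, us3, us4]
    have p1 : rr * 1.732 ≤ rr * √3 := mul_le_mul_of_nonneg_left hs3 hr0.le
    have p4 : rr ^ 4 ≤ rr ^ 2 := pow_le_pow_of_le_one hr0.le hr1.le (by norm_num)
    have p5 : rr ^ 4 * √3 ≤ rr ^ 2 * √3 := mul_le_mul_of_nonneg_right p4 (by positivity)
    have p6 : 0 ≤ rr ^ 2 * √3 := by positivity
    push_cast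
    norm_num
    linarith
  have htail : |∑' i : ℕ, T (i + 5)| ≤ 4 * rr ^ 5 / (1 - rr) := by
    have hg : HasSum (fun i : ℕ => 4 * rr ^ 5 * rr ^ i) (4 * rr ^ 5 * (1 - rr)⁻¹) :=
      (hasSum_geometric_of_lt_one hr0.le hr1).mul_left _
    rw [div_eq_mul_inv, ← Real.norm_eq_abs]
    refine tsum_of_norm_bounded hg fun i => ?_
    rw [Real.norm_eq_abs]
    simp only [hT]
    rw [abs_mul, abs_mul, abs_div, Nat.abs_cast, abs_of_pos (pow_pos hr0 (i + 5))]
    have hn0 : (0 : ℝ) < ((i + 5 : ℕ) : ℝ) := by positivity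
    have k1 : |(cf f21 (i + 5)).re| / ((i + 5 : ℕ) : ℝ) ≤ 2 := by
      rw [div_le_iff₀ hn0]
      exact cf_le eigen21 (i + 5) (by omega)
    have k2 := us_le (i + 5)
    have k3 : 0 ≤ rr ^ (i + 5) := by positivity
    calc |(cf f21 (i + 5)).re| / ((i + 5 : ℕ) : ℝ) * (rr ^ (i + 5) * |us (i + 5)|)
        ≤ 2 * (rr ^ (i + 5) * 2) := by gcongr
      _ = 4 * rr ^ 5 * rr ^ i := by rw [pow_add]; ring
  have h4 : 4 * rr ^ 5 / (1 - rr) < rr * 1.732 := by
    rw [div_lt_iff₀ (by linarith)]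
    have h5 : rr ^ 4 ≤ 0.48 ^ 4 := pow_le_pow_left₀ hr0.le hrl 4
    have h6 : 4 * rr ^ 4 < 1.732 * (1 - rr) := by
      norm_num at h5 hrl ⊢
      linarith
    have h7 : rr * (4 * rr ^ 4) < rr * (1.732 * (1 - rr)) :=
      mul_lt_mul_of_pos_left h6 hr0
    calc 4 * rr ^ 5 = rr * (4 * rr ^ 4) := by ring
      _ < rr * (1.732 * (1 - rr)) := h7
      _ = _ := by ring
  have h5 := (abs_le.1 htail).1
  linarith

/-- **The imaginary part of the integral to `1 / 3` is positive.** -/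
theorem im13_pos : 0 < (II f21 (1 / 3)).im := by
  obtain ⟨p, hp⟩ := hW7
  have hdet : (0 : ℝ) < 7 * 7 - 2 * 21 := by norm_num
  have h2 : II f21 (1 / 3) = p := mob_II_inf f21 hdet hp (1 / 3) (by norm_num) (by norm_num)
  have h4 := hp _ (z_pos (-7))
  have h7 : ((√7 : ℝ) : ℂ) ≠ 0 := by
    have : (0 : ℝ) < √7 := Real.sqrt_pos.2 (by norm_num)
    exact_mod_cast this.ne'
  have h77 : ((√7 : ℝ) : ℂ) ^ 2 = 7 := by
    rw [← Complex.ofReal_pow, Real.sq_sqrt (by norm_num)]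
    norm_num
  have h5 : (((7 : ℝ) : ℂ) * ((((-7 : ℝ) : ℂ) + (√7 : ℝ) * Complex.I) / 21) + ((2 : ℝ) : ℂ)) /
      (((21 : ℝ) : ℂ) * ((((-7 : ℝ) : ℂ) + (√7 : ℝ) * Complex.I) / 21) + ((7 : ℝ) : ℂ)) =
      ((((7 : ℝ) : ℂ) + (√7 : ℝ) * Complex.I) / 21) := by
    have e : (((21 : ℝ) : ℂ) * ((((-7 : ℝ) : ℂ) + (√7 : ℝ) * Complex.I) / 21) + ((7 : ℝ) : ℂ)) =
        (√7 : ℝ) * Complex.I := by
      push_cast
      ring
    rw [e, div_eq_iff (mul_ne_zero h7 Complex.I_ne_zero)]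
    push_cast
    linear_combination (-1 / 21 : ℂ) * (√7 : ℝ) ^ 2 * Complex.I_sq + (1 / 21 : ℂ) * h77
  rw [h5] at h4
  have h6 := im_pos_aux
  rw [h4, one_mul, Complex.add_im] at h6
  rw [h2]
  linarith

/-- **The odd symbol is exact.** -/
theorem s13_one {L : PeriodPair} {Op Om : ℝ} (hOp : 0 < Op) (hOm : 0 < Om)
    (g2 : L.g₂ = 193 / 12) (g3 : L.g₃ = 575 / 216)
    (hL : ∀ w : ℂ, w ∈ L.lattice ↔ ∃ a b : ℤ, w = a * Op + b * Om * Complex.I)
    {s : ℚ → ℤ} {t : ℕ → ℤ} (hs : ∀ r : ℚ, (II f21 r).im = Om / 2 * s r)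
    (g : Symb21 s t) : s (1 / 3) = 1 := by
  rcases s13_unit hOp hOm g2 g3 hL hs g with h | h
  · exact h
  · exfalso
    have h1 := im13_pos
    rw [hs, h] at h1
    push_cast at h1
    linarith

end Pool.Agent.N973.P21G
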